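import Pool.Agent.X162.TQ

set_option autoImplicit false
set_option linter.unusedSectionVars false


/-! Product manipulations, compatibility of the Euler product with ring homomorphisms, and the
series of the theta functions `φ(-q)`, `ψ(q)`, `f(q, q²)`, `f(-q, -q⁵)`. -/

namespace Pool.Agent.X48.PD

open Finset PowerSeries Filter Pool.Agent.X162.JTP
open scoped PowerSeries.WithPiTopology Topology

variable {K : Type*} [CommRing K] [TopologicalSpace K] [DiscreteTopology K]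

theorem cc_pow {q : K⟦X⟧} (hq : constantCoeff q = 0) (n : ℕ) (hn : n ≠ 0) :
    constantCoeff (q ^ n) = 0 := by rw [map_pow, hq, zero_pow hn]

/-- `(a; q) = (a; q²)(a q; q²)` -/
theorem PP_split {q : K⟦X⟧} (hq : constantCoeff q = 0) (a : K⟦X⟧) :
    PP q a = PP (q ^ 2) a * PP (q ^ 2) (a * q) := by
  refine (hasProd_PP hq a).unique (HasProd.even_mul_odd ?_ ?_)
  · convert hasProd_PP (cc_pow hq 2 (by norm_num)) a using 2 with i
    rw [pow_mul]
  · convert hasProd_PP (cc_pow hq 2 (by norm_num)) (a * q) using 2 with i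
    rw [pow_succ, pow_mul]; ring

/-- `(a; q)(-a; q) = (a²; q²)` -/
theorem PP_sq {q : K⟦X⟧} (hq : constantCoeff q = 0) (a : K⟦X⟧) :
    PP q a * PP q (-a) = PP (q ^ 2) (a ^ 2) := by
  refine ((hasProd_PP hq a).mul (hasProd_PP hq (-a))).unique ?_
  convert hasProd_PP (cc_pow hq 2 (by norm_num)) (a ^ 2) using 2 with i
  rw [← pow_mul, mul_comm 2 i, pow_mul]; ring

theorem PP_zero {q : K⟦X⟧} (hq : constantCoeff q = 0) (a : K⟦X⟧) :
    PP q a = (1 - a) * PP q (a * q) := by
  have h1 := (hasProd_PP hq a).tendsto_prod_nat.comp (tendsto_add_atTop_nat 1)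
  have h2 := (hasProd_PP hq (a * q)).tendsto_prod_nat.const_mul (1 - a)
  refine tendsto_nhds_unique h1 (h2.congr fun n => ?_)
  simp only [Function.comp]
  rw [prod_range_succ', mul_comm]
  congr 1
  · refine prod_congr rfl fun i _ => ?_
    rw [pow_succ]; ring
  · simp

/-- `EE q = (q; q)` -/
theorem EE_eq {q : K⟦X⟧} (hq : constantCoeff q = 0) : EE q = PP q q := by
  refine (hasProd_EE hq).unique ?_
  convert hasProd_PP hq q using 2 with i
  rw [pow_succ']

theorem EE_three {q : K⟦X⟧} (hq : constantCoeff q = 0) :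
    EE q = EE (q ^ 3) * (PP (q ^ 3) q * PP (q ^ 3) (q ^ 2)) := by
  have hq3 : constantCoeff (q ^ 3) = 0 := cc_pow hq 3 (by norm_num)
  have h1 := ((hasProd_EE hq3).mul ((hasProd_PP hq3 q).mul (hasProd_PP hq3 (q ^ 2)))).tendsto_prod_nat
  have h2 := (hasProd_EE hq).tendsto_prod_nat
  have h3 : ∀ n : ℕ, ∏ i ∈ range n, ((1 - (q ^ 3) ^ (i + 1)) * ((1 - q * (q ^ 3) ^ i) *
      (1 - q ^ 2 * (q ^ 3) ^ i))) = ∏ i ∈ range (3 * n), (1 - q ^ (i + 1)) := by
    intro n
    induction n with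
    | zero => simp
    | succ n ih =>
      rw [prod_range_succ, ih, show 3 * (n + 1) = 3 * n + 1 + 1 + 1 by ring, prod_range_succ,
        prod_range_succ, prod_range_succ]
      ring
  have h4 : Tendsto (fun n : ℕ => 3 * n) atTop atTop :=
    tendsto_atTop_mono (fun n => by simp only [id]; omega) tendsto_id
  have h5 := h2.comp h4
  refine (tendsto_nhds_unique h1 ?_).symm
  refine h5.congr fun n => ?_
  simp only [Function.comp]
  rw [← h3]

/-- the norm from the third roots of unity -/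
theorem EE_norm {q w : K⟦X⟧} (hq : constantCoeff q = 0) (hw : w ^ 2 + w + 1 = 0) :
    EE q * EE (w * q) * EE (w ^ 2 * q) * EE (q ^ 9) = EE (q ^ 3) ^ 4 := by
  have hwq : constantCoeff (w * q) = 0 := by rw [map_mul, hq, mul_zero]
  have hwq2 : constantCoeff (w ^ 2 * q) = 0 := by rw [map_mul, hq, mul_zero]
  have hq3 : constantCoeff (q ^ 3) = 0 := cc_pow hq 3 (by norm_num)
  have hq9 : constantCoeff (q ^ 9) = 0 := cc_pow hq 9 (by norm_num)
  have h4 : Tendsto (fun n : ℕ => 3 * n) atTop atTop :=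
    tendsto_atTop_mono (fun n => by simp only [id]; omega) tendsto_id
  have a1 := (((hasProd_EE hq).mul (hasProd_EE hwq)).mul (hasProd_EE hwq2)).tendsto_prod_nat.comp h4
  have a2 := (hasProd_EE hq9).tendsto_prod_nat
  have b1 := (hasProd_EE hq3).tendsto_prod_nat.comp h4
  have b2 := (((hasProd_EE hq3).mul (hasProd_EE hq3)).mul (hasProd_EE hq3)).tendsto_prod_nat
  have w3 : w ^ 3 = 1 := by linear_combination (w - 1) * hw
  have h3 : ∀ n : ℕ, (∏ i ∈ range (3 * n), ((1 - q ^ (i + 1)) * (1 - (w * q) ^ (i + 1)) *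
      (1 - (w ^ 2 * q) ^ (i + 1)))) * ∏ i ∈ range n, (1 - (q ^ 9) ^ (i + 1)) =
      (∏ i ∈ range (3 * n), (1 - (q ^ 3) ^ (i + 1))) * ∏ i ∈ range n, ((1 - (q ^ 3) ^ (i + 1)) *
      (1 - (q ^ 3) ^ (i + 1)) * (1 - (q ^ 3) ^ (i + 1))) := by
    intro n
    induction n with
    | zero => simp
    | succ n ih =>
      rw [show 3 * (n + 1) = 3 * n + 1 + 1 + 1 by ring]
      simp only [prod_range_succ]
      have key : (((1 - q ^ (3 * n + 1)) * (1 - (w * q) ^ (3 * n + 1)) *
          (1 - (w ^ 2 * q) ^ (3 * n + 1)))) * (((1 - q ^ (3 * n + 1 + 1)) * (1 - (w * q) ^ (3 * n + 1 + 1)) *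
          (1 - (w ^ 2 * q) ^ (3 * n + 1 + 1)))) * (((1 - q ^ (3 * n + 1 + 1 + 1)) * (1 - (w * q) ^ (3 * n + 1 + 1 + 1)) *
          (1 - (w ^ 2 * q) ^ (3 * n + 1 + 1 + 1)))) * (1 - (q ^ 9) ^ (n + 1)) =
          ((1 - (q ^ 3) ^ (3 * n + 1)) * (1 - (q ^ 3) ^ (3 * n + 1 + 1)) * (1 - (q ^ 3) ^ (3 * n + 1 + 1 + 1))) *
          ((1 - (q ^ 3) ^ (n + 1)) * (1 - (q ^ 3) ^ (n + 1)) * (1 - (q ^ 3) ^ (n + 1))) := by
        have e1 : w ^ (3 * n + 1) = w := by rw [pow_succ, pow_mul, w3]; ring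
        have e2 : w ^ (3 * n + 1 + 1) = w ^ 2 := by rw [pow_succ, pow_succ, pow_mul, w3]; ring
        have e3 : w ^ (3 * n + 1 + 1 + 1) = 1 := by
          rw [show 3 * n + 1 + 1 + 1 = 3 * (n + 1) by ring, pow_mul, w3]; ring
        have e4 : (w ^ 2) ^ (3 * n + 1) = w ^ 2 := by rw [← pow_mul, mul_comm, pow_mul, e1]
        have e5 : (w ^ 2) ^ (3 * n + 1 + 1) = w := by
          rw [← pow_mul, mul_comm, pow_mul, e2, ← pow_mul]
          calc w ^ (2 * 2) = w ^ 3 * w := by ring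
            _ = w := by rw [w3, one_mul]
        have e6 : (w ^ 2) ^ (3 * n + 1 + 1 + 1) = 1 := by
          rw [← pow_mul, mul_comm, pow_mul, e3]; ring
        simp only [mul_pow, e1, e2, e3, e4, e5, e6]
        set y := q ^ (3 * n + 1) with hy
        set z := q ^ (3 * n + 1 + 1) with hz
        set v := q ^ (3 * n + 1 + 1 + 1) with hv
        have g1 : (1 - y) * (1 - w * y) * (1 - w ^ 2 * y) = 1 - (q ^ 3) ^ (3 * n + 1) := by
          rw [← pow_mul, mul_comm 3, pow_mul, ← hy]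
          linear_combination (-y + y ^ 2 * w  - y ^ 3 * (w - 1)) * hw
        have g2 : (1 - z) * (1 - w ^ 2 * z) * (1 - w * z) = 1 - (q ^ 3) ^ (3 * n + 1 + 1) := by
          rw [← pow_mul, mul_comm 3, pow_mul, ← hz]
          linear_combination (-z + z ^ 2 * w - z ^ 3 * (w - 1)) * hw
        have g3 : (q ^ 9) ^ (n + 1) = (q ^ 3) ^ (3 * n + 1 + 1 + 1) := by
          rw [← pow_mul, ← pow_mul]; congr 1; ring
        have g4 : v = (q ^ 3) ^ (n + 1) := by
          rw [hv, ← pow_mul]; congr 1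
        rw [g1, g2, g3, ← g4]
        ring
      have := congrArg₂ (· * ·) ih key
      linear_combination this
  refine tendsto_nhds_unique (a1.mul a2) ?_
  have h5 := (b1.mul b2)
  have e : EE (q ^ 3) ^ 4 = EE (q ^ 3) * (EE (q ^ 3) * EE (q ^ 3) * EE (q ^ 3)) := by ring
  rw [e]
  refine h5.congr fun n => ?_
  simp only [Function.comp]
  rw [← h3]

/-- ring homomorphisms which send `X` to a multiple of `X` commute with the Euler product -/
theorem hom_EE {L : Type*} [CommRing L] [TopologicalSpace L] [DiscreteTopology L]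
    (h : K⟦X⟧ →+* L⟦X⟧) (hX : (X : L⟦X⟧) ∣ h X) {q : K⟦X⟧} (hq : constantCoeff q = 0)
    (hq' : constantCoeff (h q) = 0) : h (EE q) = EE (h q) := by
  have key : ∀ M, X ^ M ∣ h (EE q) - EE (h q) := by
    intro M
    obtain ⟨n1, h1⟩ := conv (hasProd_EE hq) M
    obtain ⟨n2, h2⟩ := conv (hasProd_EE hq') M
    have a := (red_eq M _ _).1 (h1 (n1 + n2) (by omega))
    have b := (red_eq M _ _).1 (h2 (n1 + n2) (by omega))
    obtain ⟨c, hc⟩ := a
    have a' : X ^ M ∣ h (∏ i ∈ range (n1 + n2), (1 - q ^ (i + 1))) - h (EE q) := by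
      rw [← map_sub, hc, map_mul, map_pow]
      exact dvd_mul_of_dvd_left (pow_dvd_pow_of_dvd hX M) _
    have e : h (∏ i ∈ range (n1 + n2), (1 - q ^ (i + 1))) = ∏ i ∈ range (n1 + n2), (1 - (h q) ^ (i + 1)) := by
      rw [map_prod]; simp
    rw [e] at a'
    have := dvd_sub b a'
    convert this using 1; ring
  rw [← sub_eq_zero]
  ext n
  have := (X_pow_dvd_iff.1 (key (n + 1))) n (by omega)
  rw [this]; simp

end Pool.Agent.X48.PD
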