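import Pool.Agent.X48.PD.A

set_option autoImplicit false
set_option linter.unusedSectionVars false


/-! The series of the theta functions and their 3-dissections. -/

namespace Pool.Agent.X48.PD

open Finset PowerSeries Filter Pool.Agent.X162.JTP
open scoped PowerSeries.WithPiTopology Topology

variable {K : Type*} [CommRing K] [TopologicalSpace K] [DiscreteTopology K]

/-- `j (j - 1) / 2` -/
def tri (j : ℤ) : ℤ := j * (j - 1) / 2

theorem two_tri (j : ℤ) : 2 * tri j = j * (j - 1) := by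
  have : 2 ∣ j * (j - 1) := (Int.even_mul_pred_self j).two_dvd
  exact Int.mul_ediv_cancel' this

theorem tri_nonneg (j : ℤ) : 0 ≤ tri j := by
  have h := two_tri j
  have : 0 ≤ j * (j - 1) := by
    rcases le_or_gt j 0 with h | h
    · nlinarith
    · nlinarith
  omega

/-- the exponent -/
def Ex (α β : ℕ) (j : ℤ) : ℤ := ((α : ℤ) + β) * tri j + α * j

theorem Ex_nonneg (α β : ℕ) (j : ℤ) : 0 ≤ Ex α β j := by
  have h := two_tri j
  have h1 : 2 * Ex α β j = α * ((j + 1) * (j + 1 - 1)) + β * (j * (j - 1)) := by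
    unfold Ex; linear_combination ((α : ℤ) + β) * h
  have h2 := two_tri (j + 1)
  have h3 := tri_nonneg (j + 1)
  have h4 := tri_nonneg j
  rw [← h2, ← h] at h1
  have : 0 ≤ 2 * Ex α β j := by rw [h1]; positivity
  omega

theorem Ex_nat (α β n : ℕ) : Ex α β n = ((α * n + (α + β) * n.choose 2 : ℕ) : ℤ) := by
  have h := two_tri (n : ℤ)
  have h2 := two_choose n
  have h3 : tri n = (n.choose 2 : ℤ) := by
    have : 2 * tri n = 2 * (n.choose 2 : ℤ) := by rw [h, h2]; ring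
    omega
  unfold Ex; rw [h3]; push_cast; ring

theorem Ex_neg (α β n : ℕ) : Ex α β (-(n : ℤ)) = ((β * n + (α + β) * n.choose 2 : ℕ) : ℤ) := by
  have h := two_tri (-(n : ℤ))
  have h2 := two_choose n
  have h3 : tri (-(n : ℤ)) = (n.choose 2 : ℤ) + n := by
    have : 2 * tri (-(n : ℤ)) = 2 * ((n.choose 2 : ℤ) + n) := by rw [h, mul_add, h2]; ring
    omega
  unfold Ex; rw [h3]; push_cast; ring

theorem mon_eq1 (m : ℕ) (c e : ℤ) (hc : c = 1) (he : e = m) :
    (mon c e : K⟦X⟧) = X ^ m := by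
  rw [hc, he]; unfold mon; simp

theorem tripP (α β : ℕ) (hab : α + β ≠ 0) :
    HasSum (fun j : ℤ => (mon (sg j) (Ex α β j) : K⟦X⟧))
      (EE (X ^ (α + β)) * (PP (X ^ (α + β)) (X ^ α) * PP (X ^ (α + β)) (X ^ β))) := by
  have h := triple (K := K) (q := X ^ (α + β)) (a := X ^ α) (b := X ^ β) (cX _ hab) (by ring)
  have e : T (X ^ (α + β) : K⟦X⟧) (X ^ α) (X ^ β) = fun j : ℤ => (mon (sg j) (Ex α β j) : K⟦X⟧) := by
    funext j
    rcases int_cases j with ⟨n, rfl⟩ | ⟨n, rfl⟩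
    · rw [T_nat, mon_eq n _ _ _ (sg_nat n) (Ex_nat α β n)]; ring
    · rw [T_neg, mon_eq n _ _ _ (by rw [sg_neg, sg_nat]) (Ex_neg α β n)]; ring
  rw [e] at h
  exact h

theorem tripM (α β : ℕ) (hab : α + β ≠ 0) :
    HasSum (fun j : ℤ => (mon 1 (Ex α β j) : K⟦X⟧))
      (EE (X ^ (α + β)) * (PP (X ^ (α + β)) (-X ^ α) * PP (X ^ (α + β)) (-X ^ β))) := by
  have h := triple (K := K) (q := X ^ (α + β)) (a := -X ^ α) (b := -X ^ β) (cX _ hab) (by ring)
  have e : T (X ^ (α + β) : K⟦X⟧) (-X ^ α) (-X ^ β) = fun j : ℤ => (mon 1 (Ex α β j) : K⟦X⟧) := by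
    funext j
    rcases int_cases j with ⟨n, rfl⟩ | ⟨n, rfl⟩
    · have hs : ((-1 : K⟦X⟧) ^ n) * (-1) ^ n = 1 := by rw [← mul_pow]; norm_num
      rw [T_nat, mon_eq1 _ _ _ rfl (Ex_nat α β n), neg_pow (X ^ α) n]
      linear_combination ((X ^ α) ^ n * (X ^ (α + β)) ^ n.choose 2) * hs
    · have hs : ((-1 : K⟦X⟧) ^ n) * (-1) ^ n = 1 := by rw [← mul_pow]; norm_num
      rw [T_neg, mon_eq1 _ _ _ rfl (Ex_neg α β n), neg_pow (X ^ β) n]
      linear_combination ((X ^ β) ^ n * (X ^ (α + β)) ^ n.choose 2) * hs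
  rw [e] at h
  exact h

/-- splitting a sum over the integers into the classes modulo 3 -/
theorem split3 {g : ℤ → K⟦X⟧} {a b c : K⟦X⟧} (h0 : HasSum (fun k => g (3 * k)) a)
    (h1 : HasSum (fun k => g (3 * k + 1)) b) (h2 : HasSum (fun k => g (3 * k - 1)) c) :
    HasSum g (a + b + c) := by
  have i0 : Function.Injective (fun k : ℤ => 3 * k) := fun x y h => by simpa using h
  have i1 : Function.Injective (fun k : ℤ => 3 * k + 1) := fun x y h => by simpa using h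
  have i2 : Function.Injective (fun k : ℤ => 3 * k - 1) := fun x y h => by simpa using h
  have k0 : HasSum (fun m : ℤ => if m % 3 = 0 then g m else 0) a := by
    rw [← i0.hasSum_iff]
    · convert h0 using 1
      funext k
      simp only [Function.comp]
      rw [if_pos (by omega)]
    · intro m hm
      rw [if_neg]
      intro h
      exact hm ⟨m / 3, by show 3 * (m / 3) = m; omega⟩
  have k1 : HasSum (fun m : ℤ => if m % 3 = 1 then g m else 0) b := by
    rw [← i1.hasSum_iff]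
    · convert h1 using 1
      funext k
      simp only [Function.comp]
      rw [if_pos (by omega)]
    · intro m hm
      rw [if_neg]
      intro h
      exact hm ⟨m / 3, by show 3 * (m / 3) + 1 = m; omega⟩
  have k2 : HasSum (fun m : ℤ => if m % 3 = 2 then g m else 0) c := by
    rw [← i2.hasSum_iff]
    · convert h2 using 1
      funext k
      simp only [Function.comp]
      rw [if_pos (by omega)]
    · intro m hm
      rw [if_neg]
      intro h
      exact hm ⟨m / 3 + 1, by show 3 * (m / 3 + 1) - 1 = m; omega⟩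
  convert (k0.add k1).add k2 using 1
  funext m
  have : m % 3 = 0 ∨ m % 3 = 1 ∨ m % 3 = 2 := by omega
  rcases this with h | h | h <;> simp [h]

/-- `∑ (-1)^j X^(r j²)` -/
noncomputable def ph (r : ℕ) : K⟦X⟧ :=
  EE (X ^ (r + r)) * (PP (X ^ (r + r)) (X ^ r) * PP (X ^ (r + r)) (X ^ r))

/-- `∑ (-1)^j X^(r (3 j² + 2 j))` -/
noncomputable def om (r : ℕ) : K⟦X⟧ :=
  EE (X ^ (5 * r + r)) * (PP (X ^ (5 * r + r)) (X ^ (5 * r)) * PP (X ^ (5 * r + r)) (X ^ r))

/-- `∑ X^(r j (3 j - 1) / 2)` -/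
noncomputable def aa (r : ℕ) : K⟦X⟧ :=
  EE (X ^ (r + 2 * r)) * (PP (X ^ (r + 2 * r)) (-X ^ r) * PP (X ^ (r + 2 * r)) (-X ^ (2 * r)))

/-- `∑ X^(r j (j - 1) / 2)`, twice `ψ` -/
noncomputable def ps2 (r : ℕ) : K⟦X⟧ :=
  EE (X ^ (0 + r)) * (PP (X ^ (0 + r)) (-X ^ 0) * PP (X ^ (0 + r)) (-X ^ r))

theorem sg_three (k : ℤ) : sg (3 * k) = sg k := by
  rw [show 3 * k = k + (k + k) by ring, sg_add, sg_add, sg_sq, mul_one]

theorem mon_shift (c : ℤ) (e : ℤ) (he : 0 ≤ e) (r : ℕ) :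
    (mon c (e + r) : K⟦X⟧) = X ^ r * mon c e := by
  have : (X ^ r : K⟦X⟧) = mon 1 (r : ℤ) := (mon_eq1 r _ _ rfl rfl).symm
  rw [this, mon_mul _ _ _ _ (by positivity) he, one_mul, add_comm]

theorem mon_neg' (c e : ℤ) : (mon (-c) e : K⟦X⟧) = - mon c e := mon_neg c e

theorem hsc {f g : ℤ → K⟦X⟧} {a : K⟦X⟧} (h : ∀ k, f k = g k) (hg : HasSum g a) : HasSum f a := by
  rw [show f = g from funext h]; exact hg

theorem T1 : (ph 1 : K⟦X⟧) = ph 9 - 2 * X * om 3 := by
  have h : HasSum (fun j : ℤ => (mon (sg j) (Ex 1 1 j) : K⟦X⟧)) (ph 1) := tripP 1 1 (by norm_num)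
  have h9 : HasSum (fun j : ℤ => (mon (sg j) (Ex 9 9 j) : K⟦X⟧)) (ph 9) := tripP 9 9 (by norm_num)
  have h3 : HasSum (fun j : ℤ => (mon (sg j) (Ex 15 3 j) : K⟦X⟧)) (om 3) := tripP 15 3 (by norm_num)
  have h3X : HasSum (fun j : ℤ => (-(X ^ 1 * mon (sg j) (Ex 15 3 j)) : K⟦X⟧)) (-(X ^ 1 * om 3)) :=
    (h3.mul_left (X ^ 1)).neg
  refine (h.unique (split3 (a := ph 9) (b := -(X ^ 1 * om 3)) (c := -(X ^ 1 * om 3)) ?_ ?_ ?_)).trans
    (by ring)
  · refine hsc (fun k => ?_) h9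
    rw [sg_three]
    congr 1
    have a1 := two_tri (3 * k)
    have a2 := two_tri k
    have : 2 * Ex 1 1 (3 * k) = 2 * Ex 9 9 k := by
      unfold Ex; push_cast; linear_combination 2 * a1 - 18 * a2
    omega
  · refine hsc (fun k => ?_) h3X
    have e : Ex 1 1 (3 * k + 1) = Ex 15 3 k + (1 : ℕ) := by
      have a1 := two_tri (3 * k + 1)
      have a2 := two_tri k
      have : 2 * Ex 1 1 (3 * k + 1) = 2 * (Ex 15 3 k + (1 : ℕ)) := by
        unfold Ex; push_cast; linear_combination 2 * a1 - 18 * a2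
      omega
    rw [e, mon_shift _ _ (Ex_nonneg _ _ _), sg_add, sg_three, sg_one, mul_neg_one, mon_neg]
    ring
  · refine hsc (fun k => ?_) ((Equiv.neg ℤ).hasSum_iff.2 h3X)
    simp only [Function.comp, Equiv.neg_apply]
    have e : Ex 1 1 (3 * k - 1) = Ex 15 3 (-k) + (1 : ℕ) := by
      have a1 := two_tri (3 * k - 1)
      have a2 := two_tri (-k)
      have : 2 * Ex 1 1 (3 * k - 1) = 2 * (Ex 15 3 (-k) + (1 : ℕ)) := by
        unfold Ex; push_cast; linear_combination 2 * a1 - 18 * a2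
      omega
    rw [e, mon_shift _ _ (Ex_nonneg _ _ _), sub_eq_add_neg, sg_add, sg_three, sg_neg 1, sg_one, mul_neg_one,
      mon_neg, sg_neg]
    ring

theorem T2 (r : ℕ) (hr : r ≠ 0) : (ps2 r : K⟦X⟧) = 2 * aa (3 * r) + X ^ r * ps2 (9 * r) := by
  have h : HasSum (fun j : ℤ => (mon 1 (Ex 0 r j) : K⟦X⟧)) (ps2 r) := tripM 0 r (by omega)
  have h9 : HasSum (fun j : ℤ => (mon 1 (Ex 0 (9 * r) j) : K⟦X⟧)) (ps2 (9 * r)) :=
    tripM 0 (9 * r) (by omega)
  have h3 : HasSum (fun j : ℤ => (mon 1 (Ex (3 * r) (2 * (3 * r)) j) : K⟦X⟧)) (aa (3 * r)) :=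
    tripM (3 * r) (2 * (3 * r)) (by omega)
  have h9X : HasSum (fun j : ℤ => (X ^ r * mon 1 (Ex 0 (9 * r) j) : K⟦X⟧)) (X ^ r * ps2 (9 * r)) :=
    h9.mul_left (X ^ r)
  refine (h.unique (split3 (a := aa (3 * r)) (b := aa (3 * r)) (c := X ^ r * ps2 (9 * r)) ?_ ?_ ?_)).trans
    (by ring)
  · refine hsc (fun k => ?_) h3
    congr 1
    have a1 := two_tri (3 * k)
    have a2 := two_tri k
    have : 2 * Ex 0 r (3 * k) = 2 * Ex (3 * r) (2 * (3 * r)) k := by
      unfold Ex; push_cast; linear_combination (r : ℤ) * a1 - 9 * (r : ℤ) * a2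
    omega
  · refine hsc (fun k => ?_) ((Equiv.neg ℤ).hasSum_iff.2 h3)
    simp only [Function.comp, Equiv.neg_apply]
    congr 1
    have a1 := two_tri (3 * k + 1)
    have a2 := two_tri (-k)
    have : 2 * Ex 0 r (3 * k + 1) = 2 * Ex (3 * r) (2 * (3 * r)) (-k) := by
      unfold Ex; push_cast; linear_combination (r : ℤ) * a1 - 9 * (r : ℤ) * a2
    omega
  · refine hsc (fun k => ?_) h9X
    have e : Ex 0 r (3 * k - 1) = Ex 0 (9 * r) k + (r : ℕ) := by
      have a1 := two_tri (3 * k - 1)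
      have a2 := two_tri k
      have : 2 * Ex 0 r (3 * k - 1) = 2 * (Ex 0 (9 * r) k + (r : ℕ)) := by
        unfold Ex; push_cast; linear_combination (r : ℤ) * a1 - 9 * (r : ℤ) * a2
      omega
    rw [e, mon_shift _ _ (Ex_nonneg _ _ _)]

end Pool.Agent.X48.PD
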