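import Pool.Agent.X48.PD.B

set_option autoImplicit false
set_option linter.unusedSectionVars false


/-! Product evaluations and the norm identities. -/

namespace Pool.Agent.X48.PD

open Finset PowerSeries Filter Pool.Agent.X162.JTP
open scoped PowerSeries.WithPiTopology Topology

variable {K : Type*} [CommRing K] [TopologicalSpace K] [DiscreteTopology K]

theorem EE_two' {y : K⟦X⟧} (hy : constantCoeff y = 0) : EE y = PP (y ^ 2) y * EE (y ^ 2) := by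
  rw [EE_eq (cc_pow hy 2 (by norm_num)), EE_eq hy, PP_split hy y, ← sq]

/-- `∏ (1 - X^(k i))` -/
noncomputable def F (k : ℕ) : K⟦X⟧ := EE (X ^ k)

theorem F_def (k : ℕ) : (F k : K⟦X⟧) = EE (X ^ k) := rfl

theorem F_unit (k : ℕ) (hk : k ≠ 0) : IsUnit (F k : K⟦X⟧) := isUnit_EE (cX k hk)

theorem ph_eval (r : ℕ) (hr : r ≠ 0) : (ph r * F (2 * r) : K⟦X⟧) = F r ^ 2 := by
  have hy := cX (K := K) r hr
  have h := EE_two' hy
  unfold ph F
  rw [show r + r = r * 2 by ring, show 2 * r = r * 2 by ring, pow_mul, h]; ring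

theorem om_eval (r : ℕ) (hr : r ≠ 0) :
    (om r * F (2 * r) * F (3 * r) : K⟦X⟧) = F r * F (6 * r) ^ 2 := by
  have hy := cX (K := K) r hr
  have h3 := EE_three hy
  have hy3 := cc_pow hy 3 (by norm_num)
  have s1 := PP_split hy3 ((X : K⟦X⟧) ^ r)
  have s2 := PP_split hy3 (((X : K⟦X⟧) ^ r) ^ 2)
  have h2 := EE_three (cc_pow hy 2 (by norm_num))
  unfold om F
  rw [show 5 * r + r = r * 6 by ring, show 5 * r = r * 5 by ring, show 2 * r = r * 2 by ring,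
    show 3 * r = r * 3 by ring, show 6 * r = r * 6 by ring]
  simp only [pow_mul]
  set y : K⟦X⟧ := X ^ r with hyy
  have e1 : (y ^ 3) ^ 2 = y ^ 6 := by ring
  have e2 : (y ^ 2) ^ 3 = y ^ 6 := by ring
  have e3 : y * y ^ 3 = y ^ 4 := by ring
  have e4 : y ^ 2 * y ^ 3 = y ^ 5 := by ring
  have e5 : (y ^ 2) ^ 2 = y ^ 4 := by ring
  rw [e1, e3] at s1
  rw [e1, e4] at s2
  rw [e2, e5] at h2
  rw [s1, s2] at h3
  rw [h2]
  rw [h3]
  ring

theorem aa_eval (r : ℕ) (hr : r ≠ 0) :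
    (aa r * F r * F (6 * r) : K⟦X⟧) = F (2 * r) * F (3 * r) ^ 2 := by
  have hy := cX (K := K) r hr
  have h3 := EE_three hy
  have hy3 := cc_pow hy 3 (by norm_num)
  have s1 := PP_sq hy3 ((X : K⟦X⟧) ^ r)
  have s2 := PP_sq hy3 (((X : K⟦X⟧) ^ r) ^ 2)
  have h2 := EE_three (cc_pow hy 2 (by norm_num))
  unfold aa F
  rw [show r + 2 * r = r * 3 by ring, show 2 * r = r * 2 by ring,
    show 3 * r = r * 3 by ring, show 6 * r = r * 6 by ring]
  simp only [pow_mul]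
  set y : K⟦X⟧ := X ^ r with hyy
  have e1 : (y ^ 3) ^ 2 = y ^ 6 := by ring
  have e2 : (y ^ 2) ^ 3 = y ^ 6 := by ring
  rw [e1] at s1 s2
  rw [e2] at h2
  rw [h2, h3, ← s1, ← s2]
  ring

theorem ps2_eval (r : ℕ) (hr : r ≠ 0) :
    (ps2 r * F r : K⟦X⟧) = 2 * F (2 * r) ^ 2 := by
  have hy := cX (K := K) r hr
  have h0 := PP_zero hy (-1)
  have s1 := PP_sq hy ((X : K⟦X⟧) ^ r)
  unfold ps2 F
  rw [zero_add, pow_zero, h0, show 2 * r = r * 2 by ring, pow_mul,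
    EE_eq (cc_pow hy 2 (by norm_num)), ← s1, EE_eq hy, neg_one_mul]
  ring

theorem E1 : (F 1 ^ 2 * F 6 * F 9 * F 18 : K⟦X⟧) = F 2 * (F 6 * F 9 ^ 3 - 2 * X * F 3 * F 18 ^ 3) := by
  have a := ph_eval (K := K) 1 (by norm_num)
  have b := ph_eval (K := K) 9 (by norm_num)
  have c := om_eval (K := K) 3 (by norm_num)
  have t := T1 (K := K)
  norm_num at a b c
  linear_combination (-F 6 * F 9 * F 18) * a + F 2 * F 6 * F 9 * F 18 * t + F 2 * F 6 * F 9 * b -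
    2 * X * F 2 * F 18 * c

theorem E2 (hK : ∀ x : K⟦X⟧, 2 * x = 0 → x = 0) :
    (F 2 ^ 2 * F 3 * F 9 * F 18 : K⟦X⟧) = F 1 * (F 6 * F 9 ^ 3 + X * F 3 * F 18 ^ 3) := by
  have a := ps2_eval (K := K) 1 (by norm_num)
  have b := ps2_eval (K := K) 9 (by norm_num)
  have c := aa_eval (K := K) 3 (by norm_num)
  have t := T2 (K := K) 1 (by norm_num)
  norm_num at a b c t
  rw [← sub_eq_zero]
  apply hK
  linear_combination (-F 3 * F 9 * F 18) * a + F 1 * F 3 * F 9 * F 18 * t + F 1 * X * F 3 * F 18 * b +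
    2 * F 1 * F 9 * c

end Pool.Agent.X48.PD
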