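import Mathlib

set_option autoImplicit false


/-! The algebra of level 12. -/

namespace Pool.Agent.X48.PD

theorem alg {L : Type*} [Field L] [CharZero L] (f1 f2 f3 f4 f6 f12 g1 g3 x : L)
    (h1 : f1 ≠ 0) (h2 : f2 ≠ 0) (h3 : f3 ≠ 0) (h4 : f4 ≠ 0) (h6 : f6 ≠ 0) (h12 : f12 ≠ 0)
    (hg1 : g1 * f1 * f4 = f2 ^ 3) (hg3 : g3 * f3 * f12 = f6 ^ 3)
    (R1 : f1 ^ 8 * f3 * f6 ^ 4 = f2 ^ 4 * f3 ^ 9 - 8 * x * f1 ^ 3 * f2 * f6 ^ 9)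
    (R2 : f2 ^ 8 * f3 ^ 4 * f6 = f1 * f2 ^ 3 * f3 ^ 9 + x * f1 ^ 4 * f6 ^ 9)
    (R1' : g1 ^ 8 * g3 * f6 ^ 4 = f2 ^ 4 * g3 ^ 9 + 8 * x * g1 ^ 3 * f2 * f6 ^ 9)
    (R2' : f2 ^ 8 * g3 ^ 4 * f6 = g1 * f2 ^ 3 * g3 ^ 9 - x * g1 ^ 4 * f6 ^ 9)
    (n1 : (f2 ^ 3 * f3 ^ 6 * f12 ^ 3) ^ 3 + (f1 ^ 2 * f4 * f6 ^ 9) ^ 3 ≠ 0)
    (n2 : (f2 ^ 3 * f3 ^ 6 * f12 ^ 3 * f4) ^ 2 + (f1 ^ 2 * f4 ^ 2 * f6 ^ 9) ^ 2 +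
      (2 * x * f2 ^ 3 * f3 ^ 3 * f12 ^ 6 * f1) ^ 2 +
      (f2 ^ 3 * f3 ^ 6 * f12 ^ 3 * f4) * (f1 ^ 2 * f4 ^ 2 * f6 ^ 9) +
      (f2 ^ 3 * f3 ^ 6 * f12 ^ 3 * f4) * (2 * x * f2 ^ 3 * f3 ^ 3 * f12 ^ 6 * f1) -
      (2 * x * f2 ^ 3 * f3 ^ 3 * f12 ^ 6 * f1) * (f1 ^ 2 * f4 ^ 2 * f6 ^ 9) ≠ 0)
    (n3 : f1 ^ 4 * f2 * f3 ^ 2 * f12 ^ 3 * f4 * f6 ^ 2 + (f1 ^ 2 * f4 ^ 2 * f6 ^ 9) -
      (2 * x * f2 ^ 3 * f3 ^ 3 * f12 ^ 6 * f1) ≠ 0)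
    (n4 : (f1 ^ 2 * f4 ^ 2 * f6 ^ 9) - (2 * x * f2 ^ 3 * f3 ^ 3 * f12 ^ 6 * f1) ≠ 0) :
    f2 ^ 2 * f3 ^ 3 * f4 * f12 = f1 * f4 ^ 4 * f6 ^ 2 + x * f1 * f2 ^ 2 * f12 ^ 4 := by
  have eg1 : g1 = f2 ^ 3 / (f1 * f4) := by rw [eq_div_iff (mul_ne_zero h1 h4)]; linear_combination hg1
  have eg3 : g3 = f6 ^ 3 / (f3 * f12) := by rw [eq_div_iff (mul_ne_zero h3 h12)]; linear_combination hg3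
  obtain ⟨a, ha⟩ : ∃ a, a = 2 * x * f2 ^ 3 * f3 ^ 3 * f12 ^ 6 / (f1 * f4 ^ 2 * f6 ^ 9) := ⟨_, rfl⟩
  obtain ⟨b, hb⟩ : ∃ b, b = f1 ^ 2 * f2 * f3 ^ 2 * f12 ^ 3 / (f4 * f6 ^ 7) := ⟨_, rfl⟩
  obtain ⟨c, hc⟩ : ∃ c, c = f2 ^ 3 * f3 ^ 6 * f12 ^ 3 / (f1 ^ 2 * f4 * f6 ^ 9) := ⟨_, rfl⟩
  obtain ⟨d, hd⟩ : ∃ d, d = f2 ^ 10 * f3 ^ 4 * f12 ^ 4 / (f1 ^ 4 * f4 ^ 4 * f6 ^ 10) := ⟨_, rfl⟩
  obtain ⟨e, he⟩ : ∃ e, e = 2 * f2 * f3 ^ 3 * f4 ^ 2 * f12 ^ 2 / (f1 * f6 ^ 7) := ⟨_, rfl⟩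
  have N1 : c ^ 2 - 4 * a - b ^ 2 = 0 := by
    have : c ^ 2 - 4 * a - b ^ 2 = (f2 ^ 4 * f3 ^ 9 - 8 * x * f1 ^ 3 * f2 * f6 ^ 9 - f1 ^ 8 * f3 * f6 ^ 4) *
        (f2 ^ 2 * f3 ^ 3 * f12 ^ 6 / (f1 ^ 4 * f4 ^ 2 * f6 ^ 18)) := by
      rw [ha, hb, hc]; field_simp; ring
    rw [this, R1]; ring
  have N2 : 2 * c ^ 2 + a - d * e = 0 := by
    have : 2 * c ^ 2 + a - d * e = (f1 * f2 ^ 3 * f3 ^ 9 + x * f1 ^ 4 * f6 ^ 9 - f2 ^ 8 * f3 ^ 4 * f6) *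
        (2 * f2 ^ 3 * f3 ^ 3 * f12 ^ 6 / (f1 ^ 5 * f4 ^ 2 * f6 ^ 18)) := by
      rw [ha, hc, hd, he]; field_simp
    rw [this, R2]; ring
  have N1' : d ^ 2 - 1 - 4 * a * c = 0 := by
    have : d ^ 2 - 1 - 4 * a * c = (g1 ^ 8 * g3 * f6 ^ 4 - (f2 ^ 4 * g3 ^ 9 + 8 * x * g1 ^ 3 * f2 * f6 ^ 9)) *
        (f3 ^ 9 * f12 ^ 9 / (f2 ^ 4 * f6 ^ 27)) := by
      rw [ha, hc, hd, eg1, eg3]; field_simp; ring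
    rw [this, R1']; ring
  have N2' : 2 - a * c - b * e = 0 := by
    have : 2 - a * c - b * e = (g1 * f2 ^ 3 * g3 ^ 9 - x * g1 ^ 4 * f6 ^ 9 - f2 ^ 8 * g3 ^ 4 * f6) *
        (2 * f1 * f4 * f3 ^ 9 * f12 ^ 9 / (f2 ^ 6 * f6 ^ 27)) := by
      rw [ha, hb, hc, he, eg1, eg3]; field_simp
    rw [this, R2']; ring
  have hD : f1 ^ 2 * f4 ^ 2 * f6 ^ 9 ≠ 0 := by simp [h1, h4, h6]
  have key : (c ^ 3 + 1) * ((c - 1 - a) * (c ^ 2 + 1 + a ^ 2 + c + c * a - a)) = 0 := by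
    have : 4 * ((c ^ 3 + 1) * ((c - 1 - a) * (c ^ 2 + 1 + a ^ 2 + c + c * a - a))) = 0 := by
      linear_combination (2 * c ^ 2 + a) ^ 2 * N1 + b ^ 2 * (2 * c ^ 2 + a + d * e) * N2 -
        d ^ 2 * (2 - a * c + b * e) * N2' + (2 - a * c) ^ 2 * N1'
    linear_combination this / 4
  have k1 : c ^ 3 + 1 ≠ 0 := by
    intro h
    apply n1
    have : (f2 ^ 3 * f3 ^ 6 * f12 ^ 3) ^ 3 + (f1 ^ 2 * f4 * f6 ^ 9) ^ 3 =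
        (c ^ 3 + 1) * (f1 ^ 2 * f4 * f6 ^ 9) ^ 3 := by
      rw [hc]; field_simp
    rw [this, h, zero_mul]
  have k2 : c ^ 2 + 1 + a ^ 2 + c + c * a - a ≠ 0 := by
    intro h
    apply n2
    have : (f2 ^ 3 * f3 ^ 6 * f12 ^ 3 * f4) ^ 2 + (f1 ^ 2 * f4 ^ 2 * f6 ^ 9) ^ 2 +
      (2 * x * f2 ^ 3 * f3 ^ 3 * f12 ^ 6 * f1) ^ 2 +
      (f2 ^ 3 * f3 ^ 6 * f12 ^ 3 * f4) * (f1 ^ 2 * f4 ^ 2 * f6 ^ 9) +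
      (f2 ^ 3 * f3 ^ 6 * f12 ^ 3 * f4) * (2 * x * f2 ^ 3 * f3 ^ 3 * f12 ^ 6 * f1) -
      (2 * x * f2 ^ 3 * f3 ^ 3 * f12 ^ 6 * f1) * (f1 ^ 2 * f4 ^ 2 * f6 ^ 9) =
        (c ^ 2 + 1 + a ^ 2 + c + c * a - a) * (f1 ^ 2 * f4 ^ 2 * f6 ^ 9) ^ 2 := by
      rw [hc, ha]; field_simp
    rw [this, h, zero_mul]
  have k4 : 1 - a ≠ 0 := by
    intro h
    apply n4
    have : (f1 ^ 2 * f4 ^ 2 * f6 ^ 9) - (2 * x * f2 ^ 3 * f3 ^ 3 * f12 ^ 6 * f1) =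
        (1 - a) * (f1 ^ 2 * f4 ^ 2 * f6 ^ 9) := by
      rw [ha]; field_simp
    rw [this, h, zero_mul]
  have k3 : b + (1 - a) ≠ 0 := by
    intro h
    apply n3
    have : f1 ^ 4 * f2 * f3 ^ 2 * f12 ^ 3 * f4 * f6 ^ 2 + (f1 ^ 2 * f4 ^ 2 * f6 ^ 9) -
      (2 * x * f2 ^ 3 * f3 ^ 3 * f12 ^ 6 * f1) =
        (b + (1 - a)) * (f1 ^ 2 * f4 ^ 2 * f6 ^ 9) := by
      rw [ha, hb]; field_simp; ring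
    rw [this, h, zero_mul]
  have c1 : c = 1 + a := by
    rcases mul_eq_zero.1 key with h | h
    · exact absurd h k1
    · rcases mul_eq_zero.1 h with h | h
      · linear_combination h
      · exact absurd h k2
  have b1 : b = 1 - a := by
    have : (b - (1 - a)) * (b + (1 - a)) = 0 := by
      rw [c1] at N1; linear_combination -N1
    rcases mul_eq_zero.1 this with h | h
    · linear_combination h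
    · exact absurd h k3
  have e1 : e = 2 + a := by
    have : (1 - a) * (e - (2 + a)) = 0 := by
      rw [c1, b1] at N2'; linear_combination -N2'
    rcases mul_eq_zero.1 this with h | h
    · exact absurd h k4
    · linear_combination h
  have k5 : 2 * c - e - a = 0 := by rw [c1, e1]; ring
  have : f2 ^ 2 * f3 ^ 3 * f4 * f12 - f1 * f4 ^ 4 * f6 ^ 2 - x * f1 * f2 ^ 2 * f12 ^ 4 =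
      (2 * c - e - a) * (f1 ^ 2 * f4 ^ 2 * f6 ^ 9 / (2 * f2 * f3 ^ 3 * f12 ^ 2)) := by
    rw [ha, he, hc]; field_simp
  rw [k5, zero_mul] at this
  linear_combination this

end Pool.Agent.X48.PD
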