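import Pool.Agent.X48.PD.C
import Pool.Agent.X48.PD.D

set_option autoImplicit false
set_option linter.unusedSectionVars false


/-! Norm identities over the integers. -/

namespace Pool.Agent.X48.PD

open Finset PowerSeries Filter Pool.Agent.X162.JTP

section gen

variable {K : Type*} [CommRing K] [TopologicalSpace K] [DiscreteTopology K]

theorem norm_one (w : K⟦X⟧) (hw : w ^ 2 + w + 1 = 0) :
    (EE X * EE (w * X) * EE (w ^ 2 * X) : K⟦X⟧) * F 9 = F 3 ^ 4 := by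
  have h := EE_norm (q := (X : K⟦X⟧)) (by simp) hw
  exact h

theorem norm_two (w : K⟦X⟧) (hw : w ^ 2 + w + 1 = 0) :
    (F 2 * EE (w ^ 2 * X ^ 2) * EE (w * X ^ 2) : K⟦X⟧) * F 18 = F 6 ^ 4 := by
  have h := EE_norm (q := (X : K⟦X⟧) ^ 2) (by simp) hw
  rw [← pow_mul, ← pow_mul] at h
  unfold F
  norm_num at h
  linear_combination h

theorem resc_mul (ω : K) (k : ℕ) : rescale ω ((X : K⟦X⟧) ^ k) = C (ω ^ k) * X ^ k := by
  rw [map_pow, rescale_X, mul_pow, ← map_pow]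

theorem resc_F (ω : K) (k : ℕ) (hk : k ≠ 0) : rescale ω (F k : K⟦X⟧) = EE (C (ω ^ k) * X ^ k) := by
  unfold F
  rw [hom_EE (rescale ω) (by rw [rescale_X]; exact dvd_mul_left _ _) (cX k hk)
    (by rw [resc_mul]; simp [hk]), resc_mul]

theorem R_gen (ω : K) (hω : ω ^ 2 + ω + 1 = 0) (hK : ∀ x : K⟦X⟧, 2 * x = 0 → x = 0) :
    ((F 3 : K⟦X⟧) ^ 8 * F 9 * F 18 ^ 4 = F 6 * (F 6 ^ 3 * F 9 ^ 9 - 8 * X ^ 3 * F 3 ^ 3 * F 18 ^ 9) ∧
    (F 6 : K⟦X⟧) ^ 8 * F 9 ^ 4 * F 18 = F 3 * (F 6 ^ 3 * F 9 ^ 9 + X ^ 3 * F 3 ^ 3 * F 18 ^ 9)) := by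
  have ω3 : ω ^ 3 = 1 := by linear_combination (ω - 1) * hω
  obtain ⟨w, hw⟩ : ∃ w : K⟦X⟧, w = C ω := ⟨_, rfl⟩
  have hw' : w ^ 2 + w + 1 = 0 := by
    have := congrArg (C : K →+* K⟦X⟧) hω
    simpa [hw] using this
  have hw3 : w ^ 3 = 1 := by linear_combination (w - 1) * hw'
  have N1 := norm_one w hw'
  have N2 := norm_two w hw'
  have r3 : ∀ (ω : K), ω ^ 3 = 1 → ∀ m : ℕ, m ≠ 0 → rescale ω (F (3 * m) : K⟦X⟧) = F (3 * m) := by
    intro ω h m hm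
    rw [resc_F ω _ (by omega), pow_mul, h, one_pow, map_one, one_mul]; rfl
  have ω23 : (ω ^ 2) ^ 3 = 1 := by rw [← pow_mul, mul_comm, pow_mul, ω3, one_pow]
  have a1 : rescale ω (F 1 : K⟦X⟧) = EE (w * X) := by rw [resc_F ω 1 (by norm_num), pow_one, pow_one, hw]
  have a2 : rescale (ω ^ 2) (F 1 : K⟦X⟧) = EE (w ^ 2 * X) := by
    rw [resc_F _ 1 (by norm_num), pow_one, pow_one, hw, map_pow]
  have b1 : rescale ω (F 2 : K⟦X⟧) = EE (w ^ 2 * X ^ 2) := by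
    rw [resc_F ω 2 (by norm_num), hw, map_pow]
  have b2 : rescale (ω ^ 2) (F 2 : K⟦X⟧) = EE (w * X ^ 2) := by
    rw [resc_F _ 2 (by norm_num), hw, ← pow_mul, show 2 * 2 = 3 + 1 by norm_num, pow_add, ω3, one_mul,
      pow_one]
  have c1 : rescale ω (X : K⟦X⟧) = w * X := by rw [rescale_X, hw]
  have c2 : rescale (ω ^ 2) (X : K⟦X⟧) = w ^ 2 * X := by rw [rescale_X, hw, map_pow]
  have d3 := r3 ω ω3 1 (by norm_num)
  have d6 := r3 ω ω3 2 (by norm_num)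
  have d9 := r3 ω ω3 3 (by norm_num)
  have d18 := r3 ω ω3 6 (by norm_num)
  have e3 := r3 _ ω23 1 (by norm_num)
  have e6 := r3 _ ω23 2 (by norm_num)
  have e9 := r3 _ ω23 3 (by norm_num)
  have e18 := r3 _ ω23 6 (by norm_num)
  norm_num at d3 d6 d9 d18 e3 e6 e9 e18
  have u3 := F_unit (K := K) 3 (by norm_num)
  have u6 := F_unit (K := K) 6 (by norm_num)
  have u9 := F_unit (K := K) 9 (by norm_num)
  have u18 := F_unit (K := K) 18 (by norm_num)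
  have f1 : (F 1 : K⟦X⟧) = EE X := by unfold F; rw [pow_one]
  set p1 : K⟦X⟧ := EE (w * X)
  set p2 : K⟦X⟧ := EE (w ^ 2 * X)
  set q1 : K⟦X⟧ := EE (w ^ 2 * X ^ 2)
  set q2 : K⟦X⟧ := EE (w * X ^ 2)
  rw [← f1] at N1
  constructor
  · have A := E1 (K := K)
    have A1 := congrArg (rescale ω) A
    have A2 := congrArg (rescale (ω ^ 2)) A
    simp only [map_mul, map_pow, map_sub, a1, a2, b1, b2, c1, c2, d3, d6, d9, d18, e3, e6, e9, e18,
      map_ofNat] at A1 A2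
    have P : (F 1 * p1 * p2) ^ 2 * (F 6 * F 9 * F 18) ^ 3 = (F 2 * q1 * q2) *
        ((F 6 * F 9 ^ 3) ^ 3 - 8 * X ^ 3 * (F 3 * F 18 ^ 3) ^ 3) := by
      have : (F 1 * p1 * p2) ^ 2 * (F 6 * F 9 * F 18) ^ 3 = (F 1 ^ 2 * F 6 * F 9 * F 18) *
        (p1 ^ 2 * F 6 * F 9 * F 18) * (p2 ^ 2 * F 6 * F 9 * F 18) := by ring
      rw [this, A, A1, A2]
      have h3 : ∀ y z : K⟦X⟧, (y - z) * (y - w * z) * (y - w ^ 2 * z) = y ^ 3 - z ^ 3 := by
        intro y z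
        linear_combination (-y ^ 2 * z + w * y * z ^ 2 - (w - 1) * z ^ 3) * hw'
      have := h3 (F 6 * F 9 ^ 3) (2 * X * (F 3 * F 18 ^ 3))
      linear_combination (F 2 * q1 * q2) * this
    refine ((u6.pow 3).mul (u9.pow 2)).mul_left_cancel ?_
    linear_combination (-(F 1 * p1 * p2 * F 9 + F 3 ^ 4) * F 18 * (F 6 * F 9 * F 18) ^ 3) * N1 +
      (F 9 ^ 2 * F 18) * P + (F 9 ^ 2 * ((F 6 * F 9 ^ 3) ^ 3 - 8 * X ^ 3 * (F 3 * F 18 ^ 3) ^ 3)) * N2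
  · have A := E2 hK
    have A1 := congrArg (rescale ω) A
    have A2 := congrArg (rescale (ω ^ 2)) A
    simp only [map_mul, map_pow, map_add, a1, a2, b1, b2, c1, c2, d3, d6, d9, d18, e3, e6, e9, e18]
      at A1 A2
    have P : (F 2 * q1 * q2) ^ 2 * (F 3 * F 9 * F 18) ^ 3 = (F 1 * p1 * p2) *
        ((F 6 * F 9 ^ 3) ^ 3 + X ^ 3 * (F 3 * F 18 ^ 3) ^ 3) := by
      have : (F 2 * q1 * q2) ^ 2 * (F 3 * F 9 * F 18) ^ 3 = (F 2 ^ 2 * F 3 * F 9 * F 18) *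
        (q1 ^ 2 * F 3 * F 9 * F 18) * (q2 ^ 2 * F 3 * F 9 * F 18) := by ring
      rw [this, A, A1, A2]
      have h3 : ∀ y z : K⟦X⟧, (y + z) * (y + w * z) * (y + w ^ 2 * z) = y ^ 3 + z ^ 3 := by
        intro y z
        linear_combination (y ^ 2 * z + w * y * z ^ 2 + (w - 1) * z ^ 3) * hw'
      have := h3 (F 6 * F 9 ^ 3) (X * (F 3 * F 18 ^ 3))
      linear_combination (F 1 * p1 * p2) * this
    refine ((u3.pow 3).mul (u18.pow 2)).mul_left_cancel ?_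
    linear_combination (-(F 2 * q1 * q2 * F 18 + F 6 ^ 4) * F 9 * (F 3 * F 9 * F 18) ^ 3) * N2 +
      (F 9 * F 18 ^ 2) * P + (F 18 ^ 2 * ((F 6 * F 9 ^ 3) ^ 3 + X ^ 3 * (F 3 * F 18 ^ 3) ^ 3)) * N1

theorem hom_F {L : Type*} [CommRing L] [TopologicalSpace L] [DiscreteTopology L]
    (h : K⟦X⟧ →+* L⟦X⟧) (m : ℕ) (hm : m ≠ 0) (hX : h X = X ^ m) (k : ℕ) (hk : k ≠ 0) :
    h (F k) = F (m * k) := by
  have e : h (X ^ k) = X ^ (m * k) := by rw [map_pow, hX, pow_mul]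
  unfold F
  rw [hom_EE h (by rw [hX]; exact dvd_pow_self X hm) (cX k hk) (by rw [e]; exact cX _ (by positivity)), e]

/-- the substitution `X → X³` -/
noncomputable def E3 : K⟦X⟧ →+* K⟦X⟧ := (PowerSeries.expand 3 (by norm_num) : K⟦X⟧ →ₐ[K] K⟦X⟧)

theorem E3_X : (E3 X : K⟦X⟧) = X ^ 3 := by
  show PowerSeries.expand 3 (by norm_num) X = _
  simp

theorem coeff_E3 (f : K⟦X⟧) (n : ℕ) : coeff (3 * n) (E3 f) = coeff n f := by
  show coeff (3 * n) (PowerSeries.expand 3 (by norm_num) f) = _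
  simp [coeff_expand]

theorem coeff_E3' (f : K⟦X⟧) (n : ℕ) (h : ¬ 3 ∣ n) : coeff n (E3 f) = 0 := by
  show coeff n (PowerSeries.expand 3 (by norm_num) f) = _
  rw [coeff_expand, if_neg h]

theorem E3_inj : Function.Injective (E3 : K⟦X⟧ → K⟦X⟧) := by
  intro f g h
  ext n
  rw [← coeff_E3 f, ← coeff_E3 g, h]

theorem E3_F (k : ℕ) (hk : k ≠ 0) : (E3 (F k) : K⟦X⟧) = F (3 * k) :=
  hom_F E3 3 (by norm_num) E3_X k hk

theorem R_gen' (ω : K) (hω : ω ^ 2 + ω + 1 = 0) (hK : ∀ x : K⟦X⟧, 2 * x = 0 → x = 0) :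
    ((F 1 : K⟦X⟧) ^ 8 * F 3 * F 6 ^ 4 = F 2 * (F 2 ^ 3 * F 3 ^ 9 - 8 * X * F 1 ^ 3 * F 6 ^ 9) ∧
    (F 2 : K⟦X⟧) ^ 8 * F 3 ^ 4 * F 6 = F 1 * (F 2 ^ 3 * F 3 ^ 9 + X * F 1 ^ 3 * F 6 ^ 9)) := by
  obtain ⟨h1, h2⟩ := R_gen ω hω hK
  constructor
  · apply E3_inj
    simp only [map_mul, map_pow, map_sub, E3_F _ (show (1 : ℕ) ≠ 0 by norm_num),
      E3_F _ (show (2 : ℕ) ≠ 0 by norm_num), E3_F _ (show (3 : ℕ) ≠ 0 by norm_num),
      E3_F _ (show (6 : ℕ) ≠ 0 by norm_num), E3_X, map_ofNat]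
    norm_num
    linear_combination h1
  · apply E3_inj
    simp only [map_mul, map_pow, map_add, E3_F _ (show (1 : ℕ) ≠ 0 by norm_num),
      E3_F _ (show (2 : ℕ) ≠ 0 by norm_num), E3_F _ (show (3 : ℕ) ≠ 0 by norm_num),
      E3_F _ (show (6 : ℕ) ≠ 0 by norm_num), E3_X]
    norm_num
    linear_combination h2

end gen

/-- the complex numbers with the discrete topology -/
def CC : Type := ℂ

noncomputable instance : CommRing CC := inferInstanceAs (CommRing ℂ)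
instance : CharZero CC := inferInstanceAs (CharZero ℂ)
instance : IsDomain CC := inferInstanceAs (IsDomain ℂ)
instance : TopologicalSpace CC := ⊥
instance : DiscreteTopology CC := ⟨rfl⟩

theorem exists_omega : ∃ ω : CC, ω ^ 2 + ω + 1 = 0 := by
  obtain ⟨z, hz⟩ := IsAlgClosed.exists_root (Polynomial.X ^ 2 + Polynomial.X + 1 : Polynomial ℂ) (by
    have : (Polynomial.X ^ 2 + Polynomial.X + 1 : Polynomial ℂ).degree = 2 := by compute_degree!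
    rw [this]; norm_num)
  refine ⟨z, ?_⟩
  have : z ^ 2 + z + 1 = 0 := by simpa [Polynomial.IsRoot] using hz
  exact this

theorem RZ : ((F 1 : ℤ⟦X⟧) ^ 8 * F 3 * F 6 ^ 4 = F 2 * (F 2 ^ 3 * F 3 ^ 9 - 8 * X * F 1 ^ 3 * F 6 ^ 9) ∧
    (F 2 : ℤ⟦X⟧) ^ 8 * F 3 ^ 4 * F 6 = F 1 * (F 2 ^ 3 * F 3 ^ 9 + X * F 1 ^ 3 * F 6 ^ 9)) := by
  obtain ⟨ω, hω⟩ := exists_omega
  have hK : ∀ x : CC⟦X⟧, 2 * x = 0 → x = 0 := by
    intro x hx
    rcases mul_eq_zero.1 hx with h | h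
    · exfalso
      have := congrArg (constantCoeff : CC⟦X⟧ →+* CC) h
      rw [map_ofNat, map_zero] at this
      exact two_ne_zero this
    · exact h
  obtain ⟨h1, h2⟩ := R_gen' ω hω hK
  have hinj : Function.Injective (PowerSeries.map (Int.castRingHom CC)) :=
    PowerSeries.map_injective _ (Int.cast_injective)
  have hF : ∀ k : ℕ, k ≠ 0 → PowerSeries.map (Int.castRingHom CC) (F k) = F k := by
    intro k hk
    have := hom_F (PowerSeries.map (Int.castRingHom CC)) 1 (by norm_num) (by simp) k hk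
    rwa [one_mul] at this
  constructor
  · apply hinj
    simp only [map_mul, map_pow, map_sub, hF _ (show (1 : ℕ) ≠ 0 by norm_num),
      hF _ (show (2 : ℕ) ≠ 0 by norm_num), hF _ (show (3 : ℕ) ≠ 0 by norm_num),
      hF _ (show (6 : ℕ) ≠ 0 by norm_num), PowerSeries.map_X, map_ofNat]
    exact h1
  · apply hinj
    simp only [map_mul, map_pow, map_add, hF _ (show (1 : ℕ) ≠ 0 by norm_num),
      hF _ (show (2 : ℕ) ≠ 0 by norm_num), hF _ (show (3 : ℕ) ≠ 0 by norm_num),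
      hF _ (show (6 : ℕ) ≠ 0 by norm_num), PowerSeries.map_X]
    exact h2

end Pool.Agent.X48.PD
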