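import Pool.Agent.X48.PD.E

set_option autoImplicit false
set_option linter.unusedSectionVars false


/-! The identity `ψ(q²)² + q ψ(q⁶)² = F₃³ F₄ F₁₂ / (F₁ F₆²)`. -/

namespace Pool.Agent.X48.PD

open Finset PowerSeries Filter Pool.Agent.X162.JTP

section gen

variable {K : Type*} [CommRing K] [TopologicalSpace K] [DiscreteTopology K]

theorem cc_EE {q : K⟦X⟧} (hq : constantCoeff q = 0) : constantCoeff (EE q) = 1 := by
  have h := red_EE hq 1 1 le_rfl
  rw [← u_map, red_eq] at h
  have h1 := X_pow_dvd_iff.1 h 0 (by norm_num)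
  rw [map_sub, sub_eq_zero, coeff_zero_eq_constantCoeff_apply, coeff_zero_eq_constantCoeff_apply] at h1
  rw [h1]
  simp [u, hq]

theorem cc_F (k : ℕ) (hk : k ≠ 0) : constantCoeff (F k : K⟦X⟧) = 1 := cc_EE (cX k hk)

theorem EE_sign {y : K⟦X⟧} (hy : constantCoeff y = 0) :
    EE (-y) * EE y * EE (y ^ 4) = EE (y ^ 2) ^ 3 := by
  have hy' : constantCoeff (-y) = 0 := by rw [map_neg, hy, neg_zero]
  have h1 := EE_two' hy
  have h2 := EE_two' hy'
  have h3 := EE_two' (cc_pow hy 2 (by norm_num))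
  have h4 := PP_sq (cc_pow hy 2 (by norm_num)) y
  rw [neg_sq] at h2
  rw [← pow_mul] at h3 h4
  norm_num at h3 h4
  have : EE (y ^ 2) ^ 3 = EE (y ^ 2) ^ 2 * EE (y ^ 2) := by ring
  rw [h2, h1, this]
  nth_rewrite 4 [h3]
  rw [← h4]; ring

end gen

/-- the substitution `X → -X` -/
noncomputable def sn : ℤ⟦X⟧ →+* ℤ⟦X⟧ := rescale (-1 : ℤ)

theorem sn_X : sn X = -X := by unfold sn; rw [rescale_X]; simp

theorem coeff_sn (f : ℤ⟦X⟧) (n : ℕ) : coeff n (sn f) = (-1) ^ n * coeff n f := by
  unfold sn; rw [coeff_rescale]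

theorem sn_F_even (k : ℕ) (hk : k ≠ 0) : sn (F (2 * k)) = F (2 * k) := by
  have e : sn (X ^ (2 * k)) = X ^ (2 * k) := by rw [map_pow, sn_X, pow_mul, neg_sq, ← pow_mul]
  unfold F
  rw [hom_EE sn (by rw [sn_X]; exact dvd_neg.2 dvd_rfl) (cX _ (by omega)) (by rw [e]; exact cX _ (by omega)), e]

theorem sn_F_one : sn (F 1) * F 1 * F 4 = F 2 ^ 3 := by
  have e : sn (F 1) = EE (-X) := by
    unfold F
    rw [pow_one, hom_EE sn (by rw [sn_X]; exact dvd_neg.2 dvd_rfl) (by simp) (by rw [sn_X]; simp), sn_X]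
  have := EE_sign (y := (X : ℤ⟦X⟧)) (by simp)
  rw [e]; unfold F; rw [pow_one]; exact this

theorem sn_F_three : sn (F 3) * F 3 * F 12 = F 6 ^ 3 := by
  have e0 : sn (X ^ 3) = -X ^ 3 := by rw [map_pow, sn_X]; ring
  have e : sn (F 3) = EE (-X ^ 3) := by
    unfold F
    rw [hom_EE sn (by rw [sn_X]; exact dvd_neg.2 dvd_rfl) (cX _ (by norm_num))
      (by rw [e0, map_neg, cX _ (by norm_num), neg_zero]), e0]
  have := EE_sign (y := (X : ℤ⟦X⟧) ^ 3) (cX _ (by norm_num))
  rw [← pow_mul, ← pow_mul] at this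
  rw [e]; unfold F; exact this

instance cz : CharZero ℤ⟦X⟧ :=
  charZero_of_injective_ringHom (f := (C : ℤ →+* ℤ⟦X⟧)) (PowerSeries.C_injective)

/-- the field of fractions -/
abbrev L : Type := FractionRing ℤ⟦X⟧

/-- the embedding -/
noncomputable def io : ℤ⟦X⟧ →+* L := algebraMap ℤ⟦X⟧ L

theorem io_inj : Function.Injective io := IsFractionRing.injective _ _

instance czL : CharZero L := charZero_of_injective_ringHom io_inj

theorem K2 : (F 2 : ℤ⟦X⟧) ^ 2 * F 3 ^ 3 * F 4 * F 12 = F 1 * F 4 ^ 4 * F 6 ^ 2 + X * F 1 * F 2 ^ 2 * F 12 ^ 4 := by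
  obtain ⟨R1, R2⟩ := RZ
  have R1' := congrArg sn R1
  have R2' := congrArg sn R2
  have s2 : sn (F 2) = F 2 := sn_F_even 1 (by norm_num)
  have s6 : sn (F 6) = F 6 := sn_F_even 3 (by norm_num)
  simp only [map_mul, map_pow, map_sub, map_add, s2, s6, sn_X, map_ofNat] at R1' R2'
  have hg1 := sn_F_one
  have hg3 := sn_F_three
  set g1 := sn (F 1)
  set g3 := sn (F 3)
  have inj : Function.Injective io := io_inj
  have nz : ∀ f : ℤ⟦X⟧, constantCoeff f ≠ 0 → io f ≠ 0 := by
    intro f hf h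
    rw [map_eq_zero_iff _ inj] at h
    rw [h] at hf
    simp at hf
  have hF : ∀ k : ℕ, k ≠ 0 → io (F k) ≠ 0 := fun k hk =>
    nz _ (by rw [cc_F k hk]; norm_num)
  have c1 := cc_F (K := ℤ) 1 (by norm_num)
  have c2 := cc_F (K := ℤ) 2 (by norm_num)
  have c3 := cc_F (K := ℤ) 3 (by norm_num)
  have c4 := cc_F (K := ℤ) 4 (by norm_num)
  have c6 := cc_F (K := ℤ) 6 (by norm_num)
  have c12 := cc_F (K := ℤ) 12 (by norm_num)
  have := alg (io (F 1)) (io (F 2)) (io (F 3))
    (io (F 4)) (io (F 6)) (io (F 12))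
    (io g1) (io g3) (io X)
    (hF _ (by norm_num)) (hF _ (by norm_num)) (hF _ (by norm_num)) (hF _ (by norm_num))
    (hF _ (by norm_num)) (hF _ (by norm_num))
    (by rw [← map_mul, ← map_mul, hg1, map_pow]) (by rw [← map_mul, ← map_mul, hg3, map_pow])
    (by
      have := congrArg (io) R1
      simp only [map_mul, map_pow, map_sub, map_ofNat] at this
      linear_combination this)
    (by
      have := congrArg (io) R2
      simp only [map_mul, map_pow, map_add] at this
      linear_combination this)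
    (by
      have := congrArg (io) R1'
      simp only [map_mul, map_pow, map_sub, map_ofNat, map_neg] at this
      linear_combination this)
    (by
      have := congrArg (io) R2'
      simp only [map_mul, map_pow, map_add, map_neg] at this
      linear_combination this)
    (by
      simp only [← map_mul, ← map_pow, ← map_add, ← map_sub, ← map_ofNat (io)]
      apply nz
      simp [c1, c2, c3, c4, c6, c12])
    (by
      simp only [← map_mul, ← map_pow, ← map_add, ← map_sub, ← map_ofNat (io)]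
      apply nz
      simp [c1, c2, c3, c4, c6, c12])
    (by
      simp only [← map_mul, ← map_pow, ← map_add, ← map_sub, ← map_ofNat (io)]
      apply nz
      simp [c1, c2, c3, c4, c6, c12])
    (by
      simp only [← map_mul, ← map_pow, ← map_add, ← map_sub, ← map_ofNat (io)]
      apply nz
      simp [c1, c2, c3, c4, c6, c12])
  apply inj
  simp only [map_mul, map_pow, map_add]
  exact this

end Pool.Agent.X48.PD
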