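import Pool.Agent.X48.PD.G

set_option autoImplicit false
set_option linter.unusedSectionVars false


/-! The generating function of `ped (9 n + 7)`. -/

namespace Pool.Agent.X48.PD

open Finset PowerSeries Filter Pool.Agent.X162.JTP

/-- the inverse of `F k` -/
noncomputable def G (k : ℕ) : ℤ⟦X⟧ := Ring.inverse (F k)

theorem FG (k : ℕ) (hk : k ≠ 0) : F k * G k = 1 := Ring.mul_inverse_cancel _ (F_unit k hk)

theorem io_F (k : ℕ) (hk : k ≠ 0) : io (F k) ≠ 0 := by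
  intro h
  rw [map_eq_zero_iff _ io_inj] at h
  have := cc_F (K := ℤ) k hk
  rw [h] at this
  simp at this

theorem io_G (k : ℕ) (hk : k ≠ 0) : io (G k) = (io (F k))⁻¹ := by
  apply eq_inv_of_mul_eq_one_right
  rw [← map_mul, FG k hk, map_one]

theorem E3_G (k : ℕ) (hk : k ≠ 0) : E3 (G k) = G (3 * k) := by
  have h := congrArg E3 (FG k hk)
  rw [map_mul, map_one, E3_F k hk] at h
  refine (F_unit (K := ℤ) (3 * k) (by omega)).mul_left_cancel ?_
  rw [h, FG _ (by omega)]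

theorem comp0 (a b c : ℤ⟦X⟧) (n : ℕ) :
    coeff (3 * n) (E3 a + X * E3 b + X ^ 2 * E3 c) = coeff n a := by
  rw [map_add, map_add, coeff_E3, ← pow_one X, ← pow_mul, coeff_X_pow_mul', coeff_X_pow_mul']
  rw [show (if 1 ≤ 3 * n then coeff (3 * n - 1) (E3 b) else 0) = 0 by
    split_ifs
    · exact coeff_E3' _ _ (by omega)
    · rfl]
  rw [show (if 1 * 2 ≤ 3 * n then coeff (3 * n - 1 * 2) (E3 c) else 0) = 0 by
    split_ifs
    · exact coeff_E3' _ _ (by omega)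
    · rfl]
  ring

theorem comp1 (a b c : ℤ⟦X⟧) (n : ℕ) :
    coeff (3 * n + 1) (E3 a + X * E3 b + X ^ 2 * E3 c) = coeff n b := by
  rw [map_add, map_add, coeff_E3' _ _ (by omega), ← pow_one X, ← pow_mul, coeff_X_pow_mul',
    coeff_X_pow_mul']
  rw [if_pos (by omega), show 3 * n + 1 - 1 = 3 * n by omega, coeff_E3]
  rw [show (if 1 * 2 ≤ 3 * n + 1 then coeff (3 * n + 1 - 1 * 2) (E3 c) else 0) = 0 by
    split_ifs
    · exact coeff_E3' _ _ (by omega)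
    · rfl]
  ring

theorem comp2 (a b c : ℤ⟦X⟧) (n : ℕ) :
    coeff (3 * n + 2) (E3 a + X * E3 b + X ^ 2 * E3 c) = coeff n c := by
  rw [map_add, map_add, coeff_E3' _ _ (by omega), ← pow_one X, ← pow_mul, coeff_X_pow_mul',
    coeff_X_pow_mul']
  rw [if_pos (by omega), coeff_E3' _ _ (by omega), if_pos (by omega),
    show 3 * n + 2 - 1 * 2 = 3 * n by omega, coeff_E3]
  ring

theorem two_cancel {x y : ℤ⟦X⟧} (h : 2 * x = 2 * y) : x = y :=
  mul_left_cancel₀ (by norm_num) h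

/-- `ψ(q²) = f(q⁶, q¹²) + q² ψ(q¹⁸)` -/
theorem psi_dis : F 4 ^ 2 * G 2 = E3 (F 4 * F 6 ^ 2 * G 2 * G 12) + X ^ 2 * E3 (F 12 ^ 2 * G 6) := by
  have t := T2 (K := ℤ) 2 (by norm_num)
  have a := ps2_eval (K := ℤ) 2 (by norm_num)
  have b := ps2_eval (K := ℤ) 18 (by norm_num)
  have c := aa_eval (K := ℤ) 6 (by norm_num)
  norm_num at t a b c
  have g2 := FG 2 (by norm_num)
  have g6 := FG 6 (by norm_num)
  have g18 := FG 18 (by norm_num)
  have g36 := FG 36 (by norm_num)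
  rw [map_mul, map_mul, map_mul, map_pow, map_mul, map_pow, E3_F 4 (by norm_num), E3_F 6 (by norm_num),
    E3_F 12 (by norm_num), E3_G 2 (by norm_num), E3_G 6 (by norm_num), E3_G 12 (by norm_num)]
  norm_num
  apply two_cancel
  have e1 : ps2 2 = 2 * F 4 ^ 2 * G 2 := by linear_combination G 2 * a - ps2 2 * g2
  have e2 : ps2 18 = 2 * F 36 ^ 2 * G 18 := by linear_combination G 18 * b - ps2 18 * g18
  have e3 : aa 6 = F 12 * F 18 ^ 2 * G 6 * G 36 := by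
    linear_combination G 6 * G 36 * c - aa 6 * F 36 * G 36 * g6 - aa 6 * g36
  rw [e1, e2, e3] at t
  linear_combination t

/-- `φ(-q) = φ(-q⁹) - 2 q f(-q³, -q¹⁵)` -/
theorem phi_dis : F 1 ^ 2 * G 2 = E3 (F 3 ^ 2 * G 6) - 2 * X * E3 (F 1 * F 6 ^ 2 * G 2 * G 3) := by
  have t := T1 (K := ℤ)
  have a := ph_eval (K := ℤ) 1 (by norm_num)
  have b := ph_eval (K := ℤ) 9 (by norm_num)
  have c := om_eval (K := ℤ) 3 (by norm_num)
  norm_num at a b c
  have g2 := FG 2 (by norm_num)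
  have g6 := FG 6 (by norm_num)
  have g9 := FG 9 (by norm_num)
  have g18 := FG 18 (by norm_num)
  rw [map_mul, map_mul, map_mul, map_pow, map_mul, map_pow, E3_F 3 (by norm_num), E3_F 6 (by norm_num),
    E3_F 1 (by norm_num), E3_G 2 (by norm_num), E3_G 6 (by norm_num), E3_G 3 (by norm_num)]
  norm_num
  have e1 : ph 1 = F 1 ^ 2 * G 2 := by linear_combination G 2 * a - ph 1 * g2
  have e2 : ph 9 = F 9 ^ 2 * G 18 := by linear_combination G 18 * b - ph 9 * g18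
  have e3 : om 3 = F 3 * F 18 ^ 2 * G 6 * G 9 := by
    linear_combination G 6 * G 9 * c - om 3 * F 9 * G 9 * g6 - om 3 * g9
  rw [e1, e2, e3] at t
  linear_combination t

/-- the series of `ped` -/
noncomputable def Pd : ℤ⟦X⟧ := F 4 * G 1

/-- the series of `ped (3 n + 1)` -/
noncomputable def s1 : ℤ⟦X⟧ := F 2 ^ 2 * F 3 ^ 3 * F 12 * G 1 ^ 4 * G 6 ^ 2

/-- the series of `ped (9 n + 7) / 12` -/
noncomputable def Cs : ℤ⟦X⟧ := F 2 ^ 4 * F 3 ^ 6 * F 4 * G 1 ^ 11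

theorem stepA : ∃ s0 s2, Pd = E3 s0 + X * E3 s1 + X ^ 2 * E3 s2 := by
  have i1 := io_F 1 (by norm_num)
  have i2 := io_F 2 (by norm_num)
  have i3 := io_F 3 (by norm_num)
  have i4 := io_F 4 (by norm_num)
  have i6 := io_F 6 (by norm_num)
  have i12 := io_F 12 (by norm_num)
  have j1 := io_G 1 (by norm_num)
  have j2 := io_G 2 (by norm_num)
  have j3 := io_G 3 (by norm_num)
  have j4 := io_G 4 (by norm_num)
  have j6 := io_G 6 (by norm_num)
  have j12 := io_G 12 (by norm_num)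
  have k2 := congrArg io K2
  simp only [map_mul, map_pow, map_add] at k2
  -- Λ
  have l1 : s1 = F 2 ^ 2 * G 1 ^ 3 * G 4 * ((F 4 ^ 2 * G 2) ^ 2 + X * (F 12 ^ 2 * G 6) ^ 2) := by
    apply io_inj
    unfold s1
    simp only [map_mul, map_pow, map_add, j1, j2, j4, j6]
    field_simp
    linear_combination k2
  have l2 : Pd = F 6 ^ 2 * G 3 ^ 3 * G 12 * ((F 4 ^ 2 * G 2) ^ 2 + X * (F 12 ^ 2 * G 6) ^ 2) := by
    apply io_inj
    unfold Pd
    simp only [map_mul, map_pow, map_add, j1, j2, j3, j6, j12]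
    field_simp
    linear_combination k2
  have l3 : F 6 ^ 2 * G 3 ^ 3 * G 12 = E3 (F 2 ^ 2 * G 1 ^ 3 * G 4) := by
    rw [map_mul, map_mul, map_pow, map_pow, E3_F 2 (by norm_num), E3_G 1 (by norm_num),
      E3_G 4 (by norm_num)]
  have l4 : F 12 ^ 2 * G 6 = E3 (F 4 ^ 2 * G 2) := by
    rw [map_mul, map_pow, E3_F 4 (by norm_num), E3_G 2 (by norm_num)]
  refine ⟨F 2 ^ 2 * G 1 ^ 3 * G 4 * (F 4 * F 6 ^ 2 * G 2 * G 12) ^ 2,
    F 2 ^ 2 * G 1 ^ 3 * G 4 * (2 * (F 4 * F 6 ^ 2 * G 2 * G 12) * (F 12 ^ 2 * G 6)), ?_⟩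
  rw [l2, l3, l1]
  have p := psi_dis
  set A := F 4 * F 6 ^ 2 * G 2 * G 12
  set B := F 12 ^ 2 * G 6
  set P := F 4 ^ 2 * G 2
  rw [map_mul E3 _ (A ^ 2), map_mul E3 _ (P ^ 2 + X * B ^ 2), map_mul E3 _ (2 * A * B)]
  rw [map_add E3, map_mul E3 X, map_pow E3 A, map_pow E3 P, map_pow E3 B, map_mul E3 (2 * A), map_mul E3 2 A,
    E3_X, map_ofNat, ← l4]
  rw [p]
  ring

theorem stepB : ∃ t0 t1, s1 = E3 t0 + X * E3 t1 + X ^ 2 * E3 (12 * Cs) := by
  have i1 := io_F 1 (by norm_num)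
  have i2 := io_F 2 (by norm_num)
  have i3 := io_F 3 (by norm_num)
  have i4 := io_F 4 (by norm_num)
  have i6 := io_F 6 (by norm_num)
  have i12 := io_F 12 (by norm_num)
  have j1 := io_G 1 (by norm_num)
  have j2 := io_G 2 (by norm_num)
  have j3 := io_G 3 (by norm_num)
  have j4 := io_G 4 (by norm_num)
  have j6 := io_G 6 (by norm_num)
  have j12 := io_G 12 (by norm_num)
  have r1 := congrArg io RZ.1
  simp only [map_mul, map_pow, map_sub, map_ofNat] at r1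
  obtain ⟨u, hu⟩ : ∃ u, u = F 3 ^ 2 * G 6 := ⟨_, rfl⟩
  obtain ⟨v, hv⟩ : ∃ v, v = F 1 * F 6 ^ 2 * G 2 * G 3 := ⟨_, rfl⟩
  obtain ⟨m, hm⟩ : ∃ m, m = F 2 ^ 4 * F 3 ^ 2 * G 1 ^ 8 * G 6 := ⟨_, rfl⟩
  have nm : (u ^ 3 - 8 * X * v ^ 3) * m = 1 := by
    apply io_inj
    rw [hu, hv, hm]
    simp only [map_mul, map_pow, map_sub, map_ofNat, map_one, j1, j2, j3, j6]
    field_simp
    linear_combination -r1
  have p := phi_dis
  rw [← hu, ← hv] at p
  have Enm := congrArg E3 nm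
  simp only [map_mul, map_pow, map_sub, map_ofNat, map_one, E3_X] at Enm
  have hs : s1 = E3 (F 1 ^ 3 * F 4 * G 2 ^ 2) * (G 1 ^ 2 * F 2) ^ 2 := by
    rw [map_mul, map_mul, map_pow, map_pow, E3_F 1 (by norm_num), E3_F 4 (by norm_num),
      E3_G 2 (by norm_num)]
    unfold s1; ring
  have hphi : (F 1 ^ 2 * G 2) * (G 1 ^ 2 * F 2) = 1 := by
    apply io_inj
    simp only [map_mul, map_pow, map_one, j1, j2]
    field_simp
  rw [p] at hphi
  -- inverse of phi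
  have hinv : G 1 ^ 2 * F 2 = E3 m * (E3 u ^ 2 + 2 * X * E3 u * E3 v + 4 * X ^ 2 * E3 v ^ 2) := by
    linear_combination (E3 m * (E3 u ^ 2 + 2 * X * E3 u * E3 v + 4 * X ^ 2 * E3 v ^ 2)) * hphi -
      (G 1 ^ 2 * F 2) * Enm
  have hC : 12 * Cs = F 1 ^ 3 * F 4 * G 2 ^ 2 * m ^ 2 * (12 * u ^ 2 * v ^ 2) := by
    apply io_inj
    unfold Cs
    rw [hu, hv, hm]
    simp only [map_mul, map_pow, map_ofNat, j1, j2, j3, j6]
    field_simp
  refine ⟨F 1 ^ 3 * F 4 * G 2 ^ 2 * m ^ 2 * (u ^ 4 + 16 * X * u * v ^ 3),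
    F 1 ^ 3 * F 4 * G 2 ^ 2 * m ^ 2 * (4 * u ^ 3 * v + 16 * X * v ^ 4), ?_⟩
  rw [hC, hs, hinv]
  set W := F 1 ^ 3 * F 4 * G 2 ^ 2
  simp only [map_mul E3, map_add E3, map_pow E3, map_ofNat E3, E3_X]
  ring

theorem Pd_coeff (n : ℕ) : coeff (9 * n + 7) Pd = 12 * coeff n Cs := by
  obtain ⟨s0, s2, h⟩ := stepA
  obtain ⟨t0, t1, h'⟩ := stepB
  rw [show 9 * n + 7 = 3 * (3 * n + 2) + 1 by ring, h, comp1, h', comp2]
  have : (12 : ℤ⟦X⟧) = C 12 := by simp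
  rw [this, coeff_C_mul]

end Pool.Agent.X48.PD
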