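import Pool.Agent.X48.PD.H

set_option autoImplicit false
set_option linter.unusedSectionVars false


/-! The series of `ped (9 n + 7) / 12` modulo 16. -/

namespace Pool.Agent.X48.PD

open Finset PowerSeries Filter Pool.Agent.X162.JTP

/-- divisibility of a series by an integer from its coefficients -/
theorem dvd_of_coeff (m : ℤ) (f : ℤ⟦X⟧) (h : ∀ n, m ∣ coeff n f) : ∃ g : ℤ⟦X⟧, f = C m * g := by
  choose g hg using h
  refine ⟨PowerSeries.mk g, ?_⟩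
  ext n
  rw [coeff_C_mul, coeff_mk, hg n]

theorem F_sq (k : ℕ) (hk : k ≠ 0) : ∃ c : ℤ⟦X⟧, F k ^ 2 = F (2 * k) + 2 * c := by
  have h : PowerSeries.map (Int.castRingHom (ZMod 2)) (F k ^ 2 - F (2 * k)) = 0 := by
    have e : ∀ j : ℕ, j ≠ 0 → PowerSeries.map (Int.castRingHom (ZMod 2)) (F j) = F j := by
      intro j hj
      have := hom_F (PowerSeries.map (Int.castRingHom (ZMod 2))) 1 (by norm_num) (by simp) j hj
      rwa [one_mul] at this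
    rw [map_sub, map_pow, e k hk, e (2 * k) (by omega)]
    have hy := cX (K := ZMod 2) k hk
    have h1 := PP_sq hy ((X : (ZMod 2)⟦X⟧) ^ k)
    have hneg : -((X : (ZMod 2)⟦X⟧) ^ k) = X ^ k := by
      ext n
      rw [map_neg]
      exact ZMod.neg_eq_self_mod_two _
    rw [hneg, ← EE_eq hy, ← EE_eq (cc_pow hy 2 (by norm_num))] at h1
    unfold F
    rw [sq, h1, ← pow_mul, mul_comm k 2, sub_self]
  obtain ⟨g, hg⟩ := dvd_of_coeff 2 (F k ^ 2 - F (2 * k)) (by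
    intro n
    have := congrArg (coeff n) h
    rw [coeff_map, map_zero] at this
    exact (ZMod.intCast_zmod_eq_zero_iff_dvd _ 2).1 this)
  refine ⟨g, ?_⟩
  have : (C 2 : ℤ⟦X⟧) = 2 := by simp
  rw [this] at hg
  linear_combination hg

theorem one_pow2 (a : ℤ⟦X⟧) (n : ℕ) : ∃ h, (1 + 2 * a) ^ n = 1 + 2 * h := by
  induction n with
  | zero => exact ⟨0, by ring⟩
  | succ n ih =>
    obtain ⟨h, hh⟩ := ih
    exact ⟨h + a + 2 * h * a, by rw [pow_succ, hh]; ring⟩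

theorem two_even (y : ℤ⟦X⟧) : ∃ z, y + sn y = 2 * z := by
  obtain ⟨g, hg⟩ := dvd_of_coeff 2 (y + sn y) (by
    intro n
    rw [map_add, coeff_sn]
    rcases Nat.even_or_odd n with h | h
    · rw [h.neg_one_pow]; exact ⟨coeff n y, by ring⟩
    · rw [h.neg_one_pow]; exact ⟨0, by ring⟩)
  exact ⟨g, by rw [hg]; simp⟩

theorem sn_G_even (k : ℕ) (hk : k ≠ 0) : sn (G (2 * k)) = G (2 * k) := by
  have h := congrArg sn (FG (2 * k) (by omega))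
  rw [map_mul, map_one, sn_F_even k hk] at h
  refine (F_unit (K := ℤ) (2 * k) (by omega)).mul_left_cancel ?_
  rw [h, FG _ (by omega)]

theorem sn_F1 : sn (F 1) = F 2 ^ 3 * G 1 * G 4 := by
  have h := sn_F_one
  have a := FG 1 (by norm_num)
  have b := FG 4 (by norm_num)
  linear_combination (G 1 * G 4) * h - sn (F 1) * F 4 * G 4 * a - sn (F 1) * b

theorem sn_F3 : sn (F 3) = F 6 ^ 3 * G 3 * G 12 := by
  have h := sn_F_three
  have a := FG 3 (by norm_num)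
  have b := FG 12 (by norm_num)
  linear_combination (G 3 * G 12) * h - sn (F 3) * F 12 * G 12 * a - sn (F 3) * b

theorem sn_G1 : sn (G 1) = F 1 * F 4 * G 2 ^ 3 := by
  have h := congrArg sn (FG 1 (by norm_num))
  rw [map_mul, map_one, sn_F1] at h
  have a := FG 1 (by norm_num)
  have b := FG 4 (by norm_num)
  have c : F 2 ^ 3 * G 2 ^ 3 = 1 := by rw [← mul_pow, FG 2 (by norm_num), one_pow]
  linear_combination (F 1 * F 4 * G 2 ^ 3) * h - (F 4 * G 4 * F 2 ^ 3 * G 2 ^ 3 * sn (G 1)) * a -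
    F 2 ^ 3 * G 2 ^ 3 * sn (G 1) * b - sn (G 1) * c

theorem sn_G3 : sn (G 3) = F 3 * F 12 * G 6 ^ 3 := by
  have h := congrArg sn (FG 3 (by norm_num))
  rw [map_mul, map_one, sn_F3] at h
  have a := FG 3 (by norm_num)
  have b := FG 12 (by norm_num)
  have c : F 6 ^ 3 * G 6 ^ 3 = 1 := by rw [← mul_pow, FG 6 (by norm_num), one_pow]
  linear_combination (F 3 * F 12 * G 6 ^ 3) * h - (F 12 * G 12 * F 6 ^ 3 * G 6 ^ 3 * sn (G 3)) * a -
    F 6 ^ 3 * G 6 ^ 3 * sn (G 3) * b - sn (G 3) * c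

/-- the function `x` of level 6 -/
noncomputable def xx : ℤ⟦X⟧ := X * F 1 ^ 3 * F 6 ^ 9 * G 2 ^ 3 * G 3 ^ 9

theorem xx_sn : ∃ r, xx + sn xx + 2 * xx ^ 2 = 4 * r := by
  have i1 := io_F 1 (by norm_num)
  have i2 := io_F 2 (by norm_num)
  have i3 := io_F 3 (by norm_num)
  have i4 := io_F 4 (by norm_num)
  have i6 := io_F 6 (by norm_num)
  have i12 := io_F 12 (by norm_num)
  have j1 := io_G 1 (by norm_num)
  have j2 := io_G 2 (by norm_num)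
  have j3 := io_G 3 (by norm_num)
  have j4 := io_G 4 (by norm_num)
  have j6 := io_G 6 (by norm_num)
  have j12 := io_G 12 (by norm_num)
  have k2 := congrArg io K2
  simp only [map_mul, map_pow, map_add] at k2
  obtain ⟨g, hg⟩ : ∃ g, g = F 3 ^ 3 * G 1 := ⟨_, rfl⟩
  obtain ⟨α, hα⟩ : ∃ α, α = F 4 ^ 3 * F 6 ^ 2 * G 2 ^ 2 * G 12 := ⟨_, rfl⟩
  obtain ⟨β, hβ⟩ : ∃ β, β = F 12 ^ 3 * G 4 := ⟨_, rfl⟩
  have gab : g = α + X * β := by
    apply io_inj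
    rw [hg, hα, hβ]
    simp only [map_mul, map_pow, map_add, j1, j2, j4, j12]
    field_simp
    linear_combination k2
  have sα : sn α = α := by
    rw [hα]
    simp only [map_mul, map_pow]
    rw [sn_F_even 2 (by norm_num), sn_F_even 3 (by norm_num), sn_G_even 1 (by norm_num),
      sn_G_even 6 (by norm_num)]
  have sβ : sn β = β := by
    rw [hβ]
    simp only [map_mul, map_pow]
    rw [sn_F_even 6 (by norm_num), sn_G_even 2 (by norm_num)]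
  have sg : sn g = α - X * β := by
    rw [gab, map_add, map_mul, sα, sβ, sn_X]; ring
  -- beta modulo 2
  obtain ⟨c1, h1⟩ := F_sq 1 (by norm_num)
  obtain ⟨c2, h2⟩ := F_sq 2 (by norm_num)
  obtain ⟨c3, h3⟩ := F_sq 3 (by norm_num)
  obtain ⟨c6, h6⟩ := F_sq 6 (by norm_num)
  norm_num at h1 h2 h3 h6
  have g1 := FG 1 (by norm_num)
  have g4 := FG 4 (by norm_num)
  have g2 := FG 2 (by norm_num)
  have g3 := FG 3 (by norm_num)
  obtain ⟨a1, ha1⟩ : ∃ a1 : ℤ⟦X⟧, (F 1 : ℤ⟦X⟧) ^ 4 = F 4 + 2 * a1 := by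
    refine ⟨c2 + 2 * F 2 * c1 + 2 * c1 ^ 2, ?_⟩
    have : (F 1 : ℤ⟦X⟧) ^ 4 = (F 1 ^ 2) ^ 2 := by ring
    rw [this, h1]
    linear_combination h2
  obtain ⟨a3, ha3⟩ : ∃ a3 : ℤ⟦X⟧, (F 3 : ℤ⟦X⟧) ^ 4 = F 12 + 2 * a3 := by
    refine ⟨c6 + 2 * F 6 * c3 + 2 * c3 ^ 2, ?_⟩
    have : (F 3 : ℤ⟦X⟧) ^ 4 = (F 3 ^ 2) ^ 2 := by ring
    rw [this, h3]
    linear_combination h6
  obtain ⟨b', hb'⟩ : ∃ b', β = g ^ 4 + 2 * b' := by
    -- β - g^4 = (F12^3 F1^4 - F3^12 F4) G4 G1^4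
    refine ⟨(F 12 ^ 3 * a1 - (3 * F 12 ^ 2 * a3 + 6 * F 12 * a3 ^ 2 + 4 * a3 ^ 3) * F 4) * G 4 * G 1 ^ 4, ?_⟩
    have e1 : β = F 12 ^ 3 * F 1 ^ 4 * G 4 * G 1 ^ 4 := by
      rw [hβ]
      have : F 1 ^ 4 * G 1 ^ 4 = 1 := by rw [← mul_pow, g1, one_pow]
      linear_combination -(F 12 ^ 3 * G 4) * this
    have e2 : g ^ 4 = (F 3 ^ 4) ^ 3 * F 4 * G 4 * G 1 ^ 4 := by
      rw [hg]
      linear_combination -(F 3 ^ 12 * G 1 ^ 4) * g4
    rw [e1, e2, ha1, ha3]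
    ring
  -- eta modulo 2
  obtain ⟨h, hh⟩ : ∃ h, xx = X * g ^ 3 * (1 + 2 * h) := by
    have e : xx = X * g ^ 3 * ((F 1 ^ 2 * G 2) ^ 3 * (F 6 * G 3 ^ 2) ^ 9) := by
      apply io_inj
      unfold xx
      rw [hg]
      simp only [map_mul, map_pow, j1, j2, j3]
      field_simp
    have e1 : F 1 ^ 2 * G 2 = 1 + 2 * (c1 * G 2) := by
      rw [h1]; linear_combination g2
    have e3 : F 6 * G 3 ^ 2 = 1 + 2 * (-c3 * G 3 ^ 2) := by
      have : F 3 ^ 2 * G 3 ^ 2 = 1 := by rw [← mul_pow, g3, one_pow]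
      linear_combination this - G 3 ^ 2 * h3
    obtain ⟨p1, hp1⟩ := one_pow2 (c1 * G 2) 3
    obtain ⟨p3, hp3⟩ := one_pow2 (-c3 * G 3 ^ 2) 9
    refine ⟨p1 + p3 + 2 * p1 * p3, ?_⟩
    rw [e, e1, e3, hp1, hp3]
    ring
  obtain ⟨y', hy'⟩ := two_even (X * g ^ 3 * h)
  have sxx : sn xx = sn (X * g ^ 3) + 2 * sn (X * g ^ 3 * h) := by
    have : X * g ^ 3 * (1 + 2 * h) = X * g ^ 3 + 2 * (X * g ^ 3 * h) := by ring
    rw [hh, this, map_add, map_mul sn 2, map_ofNat]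
  refine ⟨X ^ 2 * g ^ 6 + X ^ 2 * g ^ 4 * (α ^ 2 - X * α * β) +
    X ^ 2 * b' * (g ^ 2 + 2 * α ^ 2 - 2 * X * α * β) + 2 * X * g ^ 3 * (X * g ^ 3 * h) +
    2 * (X * g ^ 3 * h) ^ 2 + y', ?_⟩
  have q1 : sn (X * g ^ 3) = -X * (α - X * β) ^ 3 := by
    rw [map_mul, map_pow, sn_X, sg]
  have q2 : X * g ^ 3 - X * (α - X * β) ^ 3 = 2 * X ^ 2 * β * (3 * α ^ 2 + X ^ 2 * β ^ 2) := by
    rw [gab]; ring
  have q3 : 3 * α ^ 2 + X ^ 2 * β ^ 2 = g ^ 2 + 2 * α ^ 2 - 2 * X * α * β := by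
    rw [gab]; ring
  rw [q3] at q2
  rw [sxx, q1]
  have q4 : 2 * X ^ 2 * β * (g ^ 2 + 2 * α ^ 2 - 2 * X * α * β) =
      2 * X ^ 2 * (g ^ 4 + 2 * b') * (g ^ 2 + 2 * α ^ 2 - 2 * X * α * β) := by rw [← hb']
  rw [q4] at q2
  rw [hh]
  linear_combination q2 + 2 * hy'

end Pool.Agent.X48.PD
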