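import Pool.Agent.X48.PD.I

set_option autoImplicit false
set_option linter.unusedSectionVars false


/-! The generating function of partitions with distinct even parts. -/

namespace Pool.Agent.X48.PD

open Finset PowerSeries Filter Pool.Agent.X162.JTP
open scoped PowerSeries.WithPiTopology Topology

/-- the number of partitions of `n` in which every even part occurs at most once -/
def ped (n : ℕ) : ℕ :=
  (Finset.univ.filter fun p : Nat.Partition n => ∀ i ∈ p.parts, Even i → p.parts.count i ≤ 1).card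

/-- the weight of a part `i` of multiplicity `c` -/
def wf (i c : ℕ) : ℤ := if Even i ∧ 2 ≤ c then 0 else 1

theorem prod_wf {m : ℕ} (p : Nat.Partition m) : p.parts.toFinsupp.prod wf =
    if ∀ i ∈ p.parts, Even i → p.parts.count i ≤ 1 then 1 else 0 := by
  rw [Finsupp.prod, Multiset.toFinsupp_support]
  simp only [Multiset.toFinsupp_apply]
  split_ifs with h
  · refine prod_eq_one fun i hi => ?_
    rw [Multiset.mem_toFinset] at hi
    unfold wf
    rw [if_neg]
    rintro ⟨h1, h2⟩
    have := h i hi h1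
    omega
  · push Not at h
    obtain ⟨i, hi, he, hc⟩ := h
    refine prod_eq_zero (i := i) (Multiset.mem_toFinset.2 hi) ?_
    unfold wf
    rw [if_pos ⟨he, hc⟩]

theorem coeff_gen (n : ℕ) : coeff n (Nat.Partition.genFun wf) = (ped n : ℤ) := by
  rw [Nat.Partition.coeff_genFun]
  simp only [prod_wf]
  unfold ped
  rw [Finset.card_filter]
  push_cast
  rfl

/-- the factors -/
noncomputable def fac (i : ℕ) : ℤ⟦X⟧ := 1 + ∑' j : ℕ, wf (i + 1) (j + 1) • X ^ ((i + 1) * (j + 1))

theorem fac_even (k : ℕ) : fac (2 * k) * (1 - X ^ (2 * k + 1)) = 1 := by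
  set y : ℤ⟦X⟧ := X ^ (2 * k + 1) with hy
  have hy0 : constantCoeff y = 0 := by simp [hy]
  have h1 := WithPiTopology.tsum_pow_mul_one_sub_of_constantCoeff_eq_zero hy0
  have hs := WithPiTopology.summable_pow_of_constantCoeff_eq_zero hy0
  have h2 : ∀ j : ℕ, wf (2 * k + 1) (j + 1) • (X : ℤ⟦X⟧) ^ ((2 * k + 1) * (j + 1)) = y ^ (j + 1) := by
    intro j
    have ho : ¬ Even (2 * k + 1) := by
      rw [Nat.not_even_iff_odd]; exact ⟨k, rfl⟩
    simp only [wf, ho, false_and, if_false]
    rw [hy, ← pow_mul, one_smul]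
  have h3 : (∑' j : ℕ, wf (2 * k + 1) (j + 1) • (X : ℤ⟦X⟧) ^ ((2 * k + 1) * (j + 1))) =
      ∑' j : ℕ, y ^ (j + 1) := tsum_congr h2
  unfold fac
  rw [h3]
  rw [hs.tsum_eq_zero_add, pow_zero] at h1
  exact h1

theorem fac_odd (k : ℕ) : fac (2 * k + 1) * (1 - X ^ (2 * k + 1 + 1)) = 1 - (X ^ 4) ^ (k + 1) := by
  have h : (∑' j : ℕ, wf (2 * k + 1 + 1) (j + 1) • (X : ℤ⟦X⟧) ^ ((2 * k + 1 + 1) * (j + 1))) =
      X ^ (2 * k + 2) := by
    rw [tsum_eq_single 0]
    · simp [wf]
    · intro j hj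
      have he : Even (2 * k + 1 + 1) := ⟨k + 1, by ring⟩
      have h2 : 2 ≤ j + 1 := by omega
      simp [wf, he, h2]
  unfold fac
  rw [h, ← pow_mul]
  ring

theorem gen_eq : Nat.Partition.genFun wf = Pd := by
  have h1 : HasProd fac (Nat.Partition.genFun wf) := Nat.Partition.hasProd_genFun wf
  have h2 := h1.mul (hasProd_EE (K := ℤ) (q := X) (by simp))
  have h3 : HasProd (fun i : ℕ => fac i * (1 - X ^ (i + 1))) (1 * EE (X ^ 4)) := by
    apply HasProd.even_mul_odd (f := fun i : ℕ => fac i * (1 - X ^ (i + 1)))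
    · simp only [fac_even]; exact hasProd_one
    · simp only [fac_odd]; exact hasProd_EE (cX 4 (by norm_num))
  have h4 := h2.unique h3
  have h5 : Nat.Partition.genFun wf * F 1 = F 4 := by
    unfold F; rw [pow_one, h4, one_mul]
  unfold Pd
  rw [← h5, mul_assoc, FG 1 (by norm_num), mul_one]

theorem ped_coeff (n : ℕ) : (ped n : ℤ) = coeff n Pd := by rw [← gen_eq, coeff_gen]

theorem ped_Cs (n : ℕ) : (ped (9 * n + 7) : ℤ) = 12 * coeff n Cs := by rw [ped_coeff, Pd_coeff]

end Pool.Agent.X48.PD
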