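import Pool.Agent.X48.PD.I

set_option autoImplicit false
set_option linter.unusedSectionVars false


/-! The main congruence and the support of the series. -/

namespace Pool.Agent.X48.PD

open Finset PowerSeries Filter Pool.Agent.X162.JTP

/-- the section of `F 1 ^ 3` in the multiples of 3 -/
noncomputable def Pp : ℤ⟦X⟧ :=
  F 2 * F 3 ^ 6 * G 1 * G 6 ^ 3 + 4 * X * F 1 ^ 2 * F 6 ^ 6 * G 2 ^ 2 * G 3 ^ 3

/-- `F₆⁷ / F₁₂²` -/
noncomputable def V6 : ℤ⟦X⟧ := F 6 ^ 7 * G 12 ^ 2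

/-- `ψ(q⁶)` -/
noncomputable def Y6 : ℤ⟦X⟧ := F 12 ^ 2 * G 6

theorem main16 : ∃ h, Cs = sn Pp * V6 + 16 * h := by
  have i1 := io_F 1 (by norm_num)
  have i2 := io_F 2 (by norm_num)
  have i3 := io_F 3 (by norm_num)
  have i4 := io_F 4 (by norm_num)
  have i6 := io_F 6 (by norm_num)
  have i12 := io_F 12 (by norm_num)
  have j1 := io_G 1 (by norm_num)
  have j2 := io_G 2 (by norm_num)
  have j3 := io_G 3 (by norm_num)
  have j4 := io_G 4 (by norm_num)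
  have j6 := io_G 6 (by norm_num)
  have j12 := io_G 12 (by norm_num)
  have r1 := congrArg io RZ.1
  simp only [map_mul, map_pow, map_sub, map_ofNat] at r1
  obtain ⟨c1, h1⟩ := F_sq 1 (by norm_num)
  obtain ⟨c3, h3⟩ := F_sq 3 (by norm_num)
  obtain ⟨c6, h6⟩ := F_sq 6 (by norm_num)
  norm_num at h1 h3 h6
  have g1 := FG 1 (by norm_num)
  have g2 := FG 2 (by norm_num)
  have g3 := FG 3 (by norm_num)
  have g6 := FG 6 (by norm_num)
  have g12 := FG 12 (by norm_num)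
  obtain ⟨Z, hZ⟩ : ∃ Z, Z = F 1 ^ 4 * G 2 ^ 2 * F 6 ^ 2 * G 3 ^ 4 := ⟨_, rfl⟩
  obtain ⟨Y, hY⟩ : ∃ Y, Y = G 1 ^ 4 * F 2 ^ 2 * G 6 ^ 2 * F 3 ^ 4 := ⟨_, rfl⟩
  obtain ⟨B, hB⟩ : ∃ B, B = F 1 * F 4 * F 6 ^ 6 * G 2 ^ 2 * G 3 ^ 6 := ⟨_, rfl⟩
  obtain ⟨f6, hf6⟩ : ∃ f6, f6 = F 6 ^ 2 * G 12 := ⟨_, rfl⟩
  have ZY : Z * Y = 1 := by
    apply io_inj
    rw [hZ, hY]
    simp only [map_mul, map_pow, map_one, j1, j2, j3, j6]
    field_simp
  have Z2 : Z ^ 2 = 1 - 8 * xx := by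
    apply io_inj
    rw [hZ]
    unfold xx
    simp only [map_mul, map_pow, map_sub, map_one, map_ofNat, j2, j3]
    field_simp
    linear_combination r1
  obtain ⟨w, hw⟩ : ∃ w, Z = 1 - 4 * w := by
    have e1 : F 1 ^ 2 * G 2 = 1 + 2 * (c1 * G 2) := by
      rw [h1]; linear_combination g2
    have e3 : F 3 ^ 2 * G 6 = 1 + 2 * (c3 * G 6) := by
      rw [h3]; linear_combination g6
    have e : Z = (F 1 ^ 2 * G 2) ^ 2 * (F 6 * G 3 ^ 2) ^ 2 := by rw [hZ]; ring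
    have e' : (F 3 ^ 2 * G 6) ^ 2 * (F 6 * G 3 ^ 2) ^ 2 = 1 := by
      apply io_inj
      simp only [map_mul, map_pow, map_one, j3, j6]
      field_simp
    refine ⟨-((c1 * G 2) + (c1 * G 2) ^ 2 - (c3 * G 6) - (c3 * G 6) ^ 2) * (F 6 * G 3 ^ 2) ^ 2, ?_⟩
    rw [e1] at e
    rw [e3] at e'
    rw [e]
    linear_combination e'
  obtain ⟨r, hr⟩ := xx_sn
  have w1 : w = xx + 2 * w ^ 2 := by
    have : (8 : ℤ⟦X⟧) * w = 8 * (xx + 2 * w ^ 2) := by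
      rw [hw] at Z2; linear_combination -Z2
    exact mul_left_cancel₀ (by norm_num) this
  -- w = - sn xx + 4 (...)
  obtain ⟨p, hp⟩ : ∃ p, w = - sn xx + 4 * p := by
    refine ⟨r + 2 * (xx * w ^ 2 + w ^ 4), ?_⟩
    have e : w ^ 2 = xx ^ 2 + 4 * (xx * w ^ 2 + w ^ 4) := by
      nth_rewrite 1 [w1]; ring
    linear_combination w1 + 2 * e + hr
  obtain ⟨q, hq⟩ : ∃ q, f6 ^ 8 = 1 + 16 * q := by
    have e : f6 = 1 + 2 * (c6 * G 12) := by
      rw [hf6, h6]; linear_combination g12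
    refine ⟨((c6 * G 12) + (c6 * G 12) ^ 2) + 6 * ((c6 * G 12) + (c6 * G 12) ^ 2) ^ 2 +
      16 * ((c6 * G 12) + (c6 * G 12) ^ 2) ^ 3 + 16 * ((c6 * G 12) + (c6 * G 12) ^ 2) ^ 4, ?_⟩
    rw [e]; ring
  have Y4 : Y ^ 4 = 1 + 16 * ((xx - 4 * xx ^ 2) * Y ^ 4) := by
    have e1 : Z ^ 4 * Y ^ 4 = 1 := by rw [← mul_pow, ZY, one_pow]
    have e2 : Z ^ 4 = 1 - 16 * (xx - 4 * xx ^ 2) := by
      have : Z ^ 4 = (Z ^ 2) ^ 2 := by ring
      rw [this, Z2]; ring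
    rw [e2] at e1
    linear_combination e1
  have Y3 : Y ^ 3 = Z * Y ^ 4 := by linear_combination -(Y ^ 3) * ZY
  have hCs : Cs = B * Y ^ 3 := by
    apply io_inj
    unfold Cs
    rw [hB, hY]
    simp only [map_mul, map_pow, j1, j2, j3, j6]
    field_simp
  have hP : sn Pp * V6 = B * f6 ^ 8 * (1 + 4 * sn xx) := by
    have e : Pp = F 2 * F 3 ^ 6 * G 1 * G 6 ^ 3 * (1 + 4 * xx) := by
      apply io_inj
      unfold Pp xx
      simp only [map_mul, map_pow, map_add, map_one, map_ofNat, j1, j2, j3, j6]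
      field_simp
    rw [e, map_mul, map_add, map_one, map_mul sn 4, map_ofNat]
    have e2 : sn (F 2 * F 3 ^ 6 * G 1 * G 6 ^ 3) * V6 = B * f6 ^ 8 := by
      simp only [map_mul, map_pow]
      rw [sn_F_even 1 (by norm_num), sn_F3, sn_G1, sn_G_even 3 (by norm_num)]
      apply io_inj
      unfold V6
      rw [hB, hf6]
      simp only [map_mul, map_pow, j1, j2, j3, j6, j12]
      field_simp
    linear_combination (1 + 4 * sn xx) * e2
  refine ⟨B * (Z * ((xx - 4 * xx ^ 2) * Y ^ 4) - p - q * (1 + 4 * sn xx)), ?_⟩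
  rw [hCs, hP, Y3, hq]
  have e5 : Z = 1 + 4 * sn xx - 16 * p := by rw [hw]; linear_combination -4 * hp
  have e6 : Z * Y ^ 4 = Z + 16 * (Z * ((xx - 4 * xx ^ 2) * Y ^ 4)) := by
    linear_combination Z * Y4
  rw [e6]
  linear_combination B * e5

theorem V6_eq : ∃ h, V6 = 2 * F 6 ^ 3 - Y6 + 16 * h := by
  have i6 := io_F 6 (by norm_num)
  have i12 := io_F 12 (by norm_num)
  have j6 := io_G 6 (by norm_num)
  have j12 := io_G 12 (by norm_num)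
  obtain ⟨c6, h6⟩ := F_sq 6 (by norm_num)
  norm_num at h6
  have g12 := FG 12 (by norm_num)
  obtain ⟨f6, hf6⟩ : ∃ f6, f6 = F 6 ^ 2 * G 12 := ⟨_, rfl⟩
  have e : f6 = 1 + 2 * (c6 * G 12) := by
    rw [hf6, h6]; linear_combination g12
  have e1 : (F 6 : ℤ⟦X⟧) ^ 3 = f6 ^ 2 * Y6 := by
    apply io_inj
    rw [hf6]; unfold Y6
    simp only [map_mul, map_pow, j6, j12]
    field_simp
  have e2 : V6 = f6 ^ 4 * Y6 := by
    apply io_inj
    rw [hf6]; unfold Y6 V6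
    simp only [map_mul, map_pow, j6, j12]
    field_simp
  refine ⟨((c6 * G 12) + (c6 * G 12) ^ 2) ^ 2 * Y6, ?_⟩
  rw [e1, e2, e]
  ring

/-- `ψ(q) = f(q³, q⁶) + q ψ(q⁹)` -/
theorem psi_dis1 : F 2 ^ 2 * G 1 = E3 (F 2 * F 3 ^ 2 * G 1 * G 6) + X * E3 (F 6 ^ 2 * G 3) := by
  have t := T2 (K := ℤ) 1 (by norm_num)
  have a := ps2_eval (K := ℤ) 1 (by norm_num)
  have b := ps2_eval (K := ℤ) 9 (by norm_num)
  have c := aa_eval (K := ℤ) 3 (by norm_num)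
  norm_num at t a b c
  have g1 := FG 1 (by norm_num)
  have g3 := FG 3 (by norm_num)
  have g9 := FG 9 (by norm_num)
  have g18 := FG 18 (by norm_num)
  rw [map_mul, map_mul, map_mul, map_pow, map_mul, map_pow, E3_F 2 (by norm_num), E3_F 3 (by norm_num),
    E3_F 6 (by norm_num), E3_G 1 (by norm_num), E3_G 3 (by norm_num), E3_G 6 (by norm_num)]
  norm_num
  apply two_cancel
  have e1 : ps2 1 = 2 * F 2 ^ 2 * G 1 := by linear_combination G 1 * a - ps2 1 * g1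
  have e2 : ps2 9 = 2 * F 18 ^ 2 * G 9 := by linear_combination G 9 * b - ps2 9 * g9
  have e3 : aa 3 = F 6 * F 9 ^ 2 * G 3 * G 18 := by
    linear_combination G 3 * G 18 * c - aa 3 * F 18 * G 18 * g3 - aa 3 * g18
  rw [e1, e2, e3] at t
  linear_combination t

theorem coeff_Pp (n : ℕ) : coeff n Pp = coeff (3 * n) (F 1 ^ 3 : ℤ⟦X⟧) := by
  have i1 := io_F 1 (by norm_num)
  have i2 := io_F 2 (by norm_num)
  have i3 := io_F 3 (by norm_num)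
  have i6 := io_F 6 (by norm_num)
  have j1 := io_G 1 (by norm_num)
  have j2 := io_G 2 (by norm_num)
  have j3 := io_G 3 (by norm_num)
  have j6 := io_G 6 (by norm_num)
  obtain ⟨u, hu⟩ : ∃ u, u = F 3 ^ 2 * G 6 := ⟨_, rfl⟩
  obtain ⟨v, hv⟩ : ∃ v, v = F 1 * F 6 ^ 2 * G 2 * G 3 := ⟨_, rfl⟩
  obtain ⟨a, ha⟩ : ∃ a, a = F 2 * F 3 ^ 2 * G 1 * G 6 := ⟨_, rfl⟩
  obtain ⟨b, hb⟩ : ∃ b, b = F 6 ^ 2 * G 3 := ⟨_, rfl⟩
  have p := phi_dis
  have q := psi_dis1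
  rw [← hu, ← hv] at p
  rw [← ha, ← hb] at q
  have e : (F 1 : ℤ⟦X⟧) ^ 3 = (F 1 ^ 2 * G 2) ^ 2 * (F 2 ^ 2 * G 1) := by
    apply io_inj
    simp only [map_mul, map_pow, j1, j2]
    field_simp
  have e2 : Pp = u ^ 2 * a + 4 * X * v ^ 2 * b := by
    apply io_inj
    unfold Pp
    rw [hu, hv, ha, hb]
    simp only [map_mul, map_pow, map_add, map_ofNat, j1, j2, j3, j6]
    field_simp
  have e3 : (F 1 : ℤ⟦X⟧) ^ 3 = E3 Pp + X * E3 (u ^ 2 * b - 4 * u * v * a) +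
      X ^ 2 * E3 (4 * v ^ 2 * a - 4 * u * v * b) := by
    rw [e, p, q, e2]
    simp only [map_mul, map_pow, map_add, map_sub, map_ofNat, E3_X]
    ring
  rw [e3, comp0]

end Pool.Agent.X48.PD
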