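import Pool.Agent.X48.PD.M
import Pool.Agent.X48.PD.J

set_option autoImplicit false
set_option linter.unusedSectionVars false


/-! Supports, and the divisibility by 192. -/

namespace Pool.Agent.X48.PD

open Finset PowerSeries Filter Pool.Agent.X162.JTP
open scoped PowerSeries.WithPiTopology Topology

theorem coeff_zero_of {f : ℤ → ℤ⟦X⟧} {S : ℤ⟦X⟧} (h : HasSum f S) (n : ℕ)
    (hz : ∀ j, coeff n (f j) = 0) : coeff n S = 0 := by
  have h1 := ((WithPiTopology.hasSum_iff_hasSum_coeff ℤ).1 h) n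
  simp only [hz] at h1
  exact h1.unique hasSum_zero

theorem jac_supp (r : ℕ) (hr : r ≠ 0) (m : ℕ) (h : ∀ k : ℕ, m ≠ r * k.choose 2) :
    coeff m (F r ^ 3 : ℤ⟦X⟧) = 0 := by
  unfold F
  refine coeff_zero_of (jacobi (cX r hr)) m fun j => ?_
  have key : ∀ (a : ℤ) (k : ℕ), coeff m (C a * ((X : ℤ⟦X⟧) ^ r) ^ k.choose 2) = 0 := by
    intro a k
    rw [coeff_C_mul, ← pow_mul, coeff_X_pow, if_neg (h k), mul_zero]
  rcases int_cases j with ⟨n, rfl⟩ | ⟨n, rfl⟩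
  · rw [J_nat]
    have := key ((-1) ^ n * n) (n + 1)
    rw [ch] at this
    simpa using this
  · rw [J_neg]
    have := key ((-1) ^ n * n) n
    rw [map_neg]
    simpa using this

theorem sup_Pp (i : ℕ) (h : ¬ ∃ x : ℤ, 24 * (i : ℤ) + 1 = x ^ 2) : coeff i (sn Pp) = 0 := by
  rw [coeff_sn, coeff_Pp, jac_supp 1 one_ne_zero, mul_zero]
  intro k hk
  apply h
  refine ⟨2 * k - 1, ?_⟩
  have h2 := two_choose k
  have h3 : (3 * (i : ℤ)) = (k.choose 2 : ℤ) := by exact_mod_cast (by omega : 3 * i = k.choose 2)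
  linear_combination 8 * h3 + 4 * h2

theorem sup_F6 (j : ℕ) (h : ¬ ∃ y : ℤ, 4 * (j : ℤ) + 3 = 3 * y ^ 2) : coeff j (F 6 ^ 3 : ℤ⟦X⟧) = 0 := by
  rw [jac_supp 6 (by norm_num)]
  intro k hk
  apply h
  refine ⟨2 * k - 1, ?_⟩
  have h2 := two_choose k
  have h3 : (j : ℤ) = 6 * (k.choose 2 : ℤ) := by exact_mod_cast hk
  linear_combination 4 * h3 + 12 * h2

theorem sup_Y6 (j : ℕ) (h : ¬ ∃ y : ℤ, 4 * (j : ℤ) + 3 = 3 * y ^ 2) : coeff j Y6 = 0 := by
  have a := ps2_eval (K := ℤ) 6 (by norm_num)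
  norm_num at a
  have g6 := FG 6 (by norm_num)
  have e1 : ps2 6 = 2 * Y6 := by unfold Y6; linear_combination G 6 * a - ps2 6 * g6
  have hs : HasSum (fun j : ℤ => (mon 1 (Ex 0 6 j) : ℤ⟦X⟧)) (ps2 6) := tripM 0 6 (by norm_num)
  have hz : coeff j (ps2 6 : ℤ⟦X⟧) = 0 := by
    refine coeff_zero_of hs j fun i => ?_
    rw [coeff_mon, if_neg]
    intro hj
    apply h
    refine ⟨2 * i - 1, ?_⟩
    have h1 := Ex_nonneg 0 6 i
    have h2 : (j : ℤ) = Ex 0 6 i := by rw [hj, Int.toNat_of_nonneg h1]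
    have h3 := two_tri i
    unfold Ex at h2
    push_cast at h2
    linear_combination 4 * h2 + 12 * h3
  rw [e1] at hz
  have : (2 : ℤ⟦X⟧) = C 2 := by simp
  rw [this, coeff_C_mul] at hz
  omega

theorem Cs_dvd (m : ℕ) (h : ¬ ∃ x y : ℤ, 24 * (m : ℤ) + 19 = x ^ 2 + 18 * y ^ 2) :
    16 ∣ coeff m Cs := by
  obtain ⟨h1, e1⟩ := main16
  obtain ⟨h2, e2⟩ := V6_eq
  have e : Cs = sn Pp * (2 * F 6 ^ 3 - Y6) + C 16 * (sn Pp * h2 + h1) := by
    have : (C 16 : ℤ⟦X⟧) = 16 := by simp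
    rw [this, e1, e2]; ring
  have z : coeff m (sn Pp * (2 * F 6 ^ 3 - Y6)) = 0 := by
    rw [coeff_mul]
    refine sum_eq_zero fun x hx => ?_
    rw [HasAntidiagonal.mem_antidiagonal] at hx
    by_cases ha : ∃ a : ℤ, 24 * (x.1 : ℤ) + 1 = a ^ 2
    · by_cases hb : ∃ b : ℤ, 4 * (x.2 : ℤ) + 3 = 3 * b ^ 2
      · exfalso
        apply h
        obtain ⟨a, ha⟩ := ha
        obtain ⟨b, hb⟩ := hb
        refine ⟨a, b, ?_⟩
        have : (m : ℤ) = x.1 + x.2 := by exact_mod_cast hx.symm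
        rw [this]
        linear_combination ha + 6 * hb
      · have : (2 : ℤ⟦X⟧) = C 2 := by simp
        rw [map_sub, this, coeff_C_mul, sup_F6 _ hb, sup_Y6 _ hb]; ring
    · rw [sup_Pp _ ha, zero_mul]
  rw [e, map_add, z, coeff_C_mul, zero_add]
  exact dvd_mul_right _ _

theorem desc (p : ℕ) [Fact p.Prime] (hp : legendreSym p (-2) = -1) (k : ℕ) :
    ∀ a b : ℤ, (p : ℤ) ^ (2 * k + 1) ∣ a ^ 2 + 2 * b ^ 2 → (p : ℤ) ^ (2 * k + 2) ∣ a ^ 2 + 2 * b ^ 2 := by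
  have base : ∀ a b : ℤ, (p : ℤ) ∣ a ^ 2 + 2 * b ^ 2 → (p : ℤ) ∣ a ∧ (p : ℤ) ∣ b := by
    intro a b h
    exact legendreSym.prime_dvd_of_eq_neg_one hp (by convert h using 1; ring)
  have hp0 : (p : ℤ) ≠ 0 := by exact_mod_cast (Fact.out : p.Prime).ne_zero
  induction k with
  | zero =>
    intro a b h
    obtain ⟨⟨c, hc⟩, ⟨d, hd⟩⟩ := base a b (by simpa using h)
    exact ⟨c ^ 2 + 2 * d ^ 2, by rw [hc, hd]; ring⟩
  | succ k ih =>
    intro a b h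
    obtain ⟨⟨c, hc⟩, ⟨d, hd⟩⟩ := base a b ((dvd_pow_self _ (by omega)).trans h)
    have e : a ^ 2 + 2 * b ^ 2 = (p : ℤ) ^ 2 * (c ^ 2 + 2 * d ^ 2) := by rw [hc, hd]; ring
    rw [e] at h ⊢
    rw [show 2 * (k + 1) + 1 = 2 + (2 * k + 1) by ring, pow_add] at h
    rw [show 2 * (k + 1) + 2 = 2 + (2 * k + 2) by ring, pow_add]
    exact mul_dvd_mul_left _ (ih c d ((mul_dvd_mul_iff_left (pow_ne_zero 2 hp0)).1 h))

theorem sq24 (t : ℕ) (ht : Nat.Coprime t 6) : ∃ s, t ^ 2 = 24 * s + 1 := by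
  have h2 : t % 2 = 1 := by
    by_contra h
    have h3 : Nat.Coprime t 2 := Nat.Coprime.coprime_dvd_right (by norm_num) ht
    have : 2 ∣ Nat.gcd t 2 := Nat.dvd_gcd (by omega) dvd_rfl
    rw [Nat.Coprime] at h3
    rw [h3] at this
    omega
  have h3 : t % 3 ≠ 0 := by
    intro h
    have h3 : Nat.Coprime t 3 := Nat.Coprime.coprime_dvd_right (by norm_num) ht
    have : 3 ∣ Nat.gcd t 3 := Nat.dvd_gcd (Nat.dvd_of_mod_eq_zero h) dvd_rfl
    rw [Nat.Coprime] at h3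
    rw [h3] at this
    omega
  have h4 : t ^ 2 % 24 = 1 := by
    have h5 : t % 24 < 24 := Nat.mod_lt _ (by norm_num)
    have h6 : (t % 24) % 2 = 1 := by omega
    have h7 : (t % 24) % 3 ≠ 0 := by omega
    rw [Nat.pow_mod]
    generalize t % 24 = u at h5 h6 h7
    interval_cases u <;> omega
  exact ⟨t ^ 2 / 24, by omega⟩

theorem main (p : ℕ) [Fact p.Prime] (hp5 : 5 ≤ p) (hp : legendreSym p (-2) = -1) (t : ℕ)
    (ht : Nat.Coprime t 6) (hpt : p ∣ t) (n j : ℕ) (hj1 : 1 ≤ j) (hj2 : j ≤ p - 1) :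
    192 ∣ ped (9 * t ^ 2 * n + 9 * t ^ 2 * j / p + (57 * t ^ 2 - 1) / 8) := by
  have hpp : p.Prime := Fact.out
  obtain ⟨s, hs⟩ := sq24 t ht
  obtain ⟨t1, rfl⟩ := hpt
  have e1 : 9 * (p * t1) ^ 2 * j / p = 9 * (p * t1) * t1 * j := by
    rw [show 9 * (p * t1) ^ 2 * j = (9 * (p * t1) * t1 * j) * p by ring]
    exact Nat.mul_div_cancel _ hpp.pos
  have e2 : (57 * (p * t1) ^ 2 - 1) / 8 = 171 * s + 7 := by rw [hs]; omega
  have e3 : 9 * (p * t1) ^ 2 * n + 9 * (p * t1) ^ 2 * j / p + (57 * (p * t1) ^ 2 - 1) / 8 =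
      9 * ((p * t1) ^ 2 * n + (p * t1) * t1 * j + 19 * s) + 7 := by
    rw [e1, e2]; ring
  rw [e3]
  set m := (p * t1) ^ 2 * n + (p * t1) * t1 * j + 19 * s with hm
  have key : (16 : ℤ) ∣ coeff m Cs := by
    apply Cs_dvd
    rintro ⟨x, y, hxy⟩
    have ht1 : t1 ≠ 0 := by
      rintro rfl
      simp at hs
    obtain ⟨a, t2, hnd, ht2⟩ := Nat.exists_eq_pow_mul_and_not_dvd ht1 p hpp.ne_one
    have hs' : ((p : ℤ) * t1) ^ 2 = 24 * s + 1 := by exact_mod_cast hs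
    have ht2' : (t1 : ℤ) = (p : ℤ) ^ a * t2 := by exact_mod_cast ht2
    have e4 : x ^ 2 + 2 * (3 * y) ^ 2 = (p : ℤ) ^ (2 * a + 1) *
        ((t2 : ℤ) ^ 2 * (p * (24 * n + 19) + 24 * j)) := by
      have : x ^ 2 + 2 * (3 * y) ^ 2 = x ^ 2 + 18 * y ^ 2 := by ring
      rw [this, ← hxy, hm]
      push_cast
      have e5 : 24 * (((p : ℤ) * t1) ^ 2 * n + (p * t1) * t1 * j + 19 * s) + 19 =
          (p : ℤ) * t1 ^ 2 * (p * (24 * n + 19) + 24 * j) := by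
        linear_combination -19 * hs'
      rw [e5, ht2']; ring
    have h1 := desc p hp a x (3 * y) (by rw [e4]; exact dvd_mul_right _ _)
    rw [e4, show 2 * a + 2 = (2 * a + 1) + 1 by ring, pow_succ] at h1
    have hp0 : (p : ℤ) ^ (2 * a + 1) ≠ 0 := pow_ne_zero _ (by exact_mod_cast hpp.ne_zero)
    have h2 := (mul_dvd_mul_iff_left hp0).1 h1
    have hpi : Prime (p : ℤ) := Nat.prime_iff_prime_int.1 hpp
    rcases hpi.dvd_or_dvd h2 with h3 | h3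
    · have h4 := hpi.dvd_of_dvd_pow h3
      exact hnd (by exact_mod_cast h4)
    · have h4 : (p : ℤ) ∣ 24 * j := (dvd_add_right (dvd_mul_right _ _)).1 h3
      have h5 : p ∣ 24 * j := by exact_mod_cast h4
      rcases (Nat.Prime.dvd_mul hpp).1 h5 with h6 | h6
      · have h7 : p ∣ 2 ^ 3 * 3 := by norm_num; exact h6
        rcases (Nat.Prime.dvd_mul hpp).1 h7 with h8 | h8
        · have := Nat.le_of_dvd (by norm_num) (hpp.dvd_of_dvd_pow h8); omega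
        · have := Nat.le_of_dvd (by norm_num) h8; omega
      · have := Nat.le_of_dvd (by omega) h6
        have := hpp.pos
        omega
  have h := ped_Cs m
  obtain ⟨c, hc⟩ := key
  rw [hc] at h
  have : (192 : ℤ) ∣ (ped (9 * m + 7) : ℤ) := ⟨c, by rw [h]; ring⟩
  exact_mod_cast this

end Pool.Agent.X48.PD
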